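import Pool.Agent.H648_nf.Law
import Pool.Agent.H648_sw.Mea

set_option autoImplicit false

/-! Large values in all windows, in the general interface. -/

namespace Pool.Agent.H648_nf

open MeasureTheory Filter Topology Finset
open Pool.Agent.H383.Gen (Bd)
open Pool.Agent.H648_sw (wm wm_int meas_core core_int)

variable {E : ℝ → ℝ}

lemma E_int (hEm : Measurable E) (hEb : ∀ R₁ R₂ : ℝ, 0 < R₁ → ∃ B : ℝ, ∀ R, R₁ ≤ R → R ≤ R₂ → |E R| ≤ B)
    {R b : ℝ} (hR : 0 < R) (hb : R ≤ b) :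
    IntervalIntegrable E volume R b ∧ IntervalIntegrable (fun x => (E x) ^ 2) volume R b := by
  obtain ⟨D, hD⟩ := hEb R b hR
  constructor
  · rw [intervalIntegrable_iff_integrableOn_Icc_of_le hb]
    refine Measure.integrableOn_of_bounded (M := D) ?_ hEm.aestronglyMeasurable ?_
    · rw [Real.volume_Icc]; exact ENNReal.ofReal_ne_top
    · filter_upwards [ae_restrict_mem measurableSet_Icc] with x hx
      exact hD x hx.1 hx.2
  · rw [intervalIntegrable_iff_integrableOn_Icc_of_le hb]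
    refine Measure.integrableOn_of_bounded (M := D ^ 2) ?_ (hEm.pow_const 2).aestronglyMeasurable ?_
    · rw [Real.volume_Icc]; exact ENNReal.ofReal_ne_top
    · filter_upwards [ae_restrict_mem measurableSet_Icc] with x hx
      rw [Real.norm_eq_abs, abs_of_nonneg (sq_nonneg _), ← sq_abs]
      exact pow_le_pow_left₀ (abs_nonneg _) (hD x hx.1 hx.2) 2

/-- the mean square in windows -/
theorem ms_gen (hEm : Measurable E) (hEb : ∀ R₁ R₂ : ℝ, 0 < R₁ → ∃ B : ℝ, ∀ R, R₁ ≤ R → R ≤ R₂ → |E R| ≤ B)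
    {p : ℕ} {V L R₀ : ℝ} (hV0 : 0 ≤ V) (hL : 0 < L)
    (h : ∀ R, R₀ ≤ R → ∀ H, L * (Real.log R) ^ (p + 1) ≤ H → H ≤ R → |∫ x, (E x) ^ 2 ∂(wm R H) - V| ≤ 1) :
    ∃ C R₁ : ℝ, 0 < C ∧ 4 ≤ R₁ ∧ ∀ R H : ℝ, R₁ ≤ R → 0 < H → H ≤ R →
    ∫ x in R..(R + H), (E x) ^ 2 ≤ C * (H + (Real.log R) ^ (p + 1)) := by
  obtain ⟨R₂, hR₂⟩ := log_pow_le p L
  refine ⟨(V + 1) * (L + 1), max (max R₀ R₂) 4, by positivity, le_max_right _ _, fun R H hR hH0 hHR => ?_⟩
  have hRa : R₀ ≤ R := ((le_max_left _ _).trans (le_max_left _ _)).trans hR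
  have hRb : R₂ ≤ R := ((le_max_right _ _).trans (le_max_left _ _)).trans hR
  have hR4 : 4 ≤ R := (le_max_right _ _).trans hR
  have hRpos : 0 < R := by linarith
  have hlp : 0 < (Real.log R) ^ (p + 1) := pow_pos (Real.log_pos (by linarith)) _
  obtain ⟨H', hH'⟩ : ∃ H' : ℝ, H' = max H (L * (Real.log R) ^ (p + 1)) := ⟨_, rfl⟩
  have hH'1 : H ≤ H' := by rw [hH']; exact le_max_left _ _
  have hH'2 : L * (Real.log R) ^ (p + 1) ≤ H' := by rw [hH']; exact le_max_right _ _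
  have hH'3 : H' ≤ R := by rw [hH']; exact max_le hHR (hR₂ R hRb)
  have hH'4 : H' ≤ H + L * (Real.log R) ^ (p + 1) := by
    rw [hH']
    have := mul_pos hL hlp
    exact max_le (by linarith) (by linarith)
  have hH'0 : 0 < H' := lt_of_lt_of_le hH0 hH'1
  have hw := h R hRa H' hH'2 hH'3
  rw [wm_int R hH'0, smul_eq_mul] at hw
  have hw2 : ∫ x in R..(R + H'), (E x) ^ 2 ≤ H' * (V + 1) := by
    have e1 := (abs_le.1 hw).2
    have e2 : 1 / H' * ∫ x in R..(R + H'), (E x) ^ 2 ≤ V + 1 := by linarith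
    have e3 := mul_le_mul_of_nonneg_left e2 hH'0.le
    rwa [← mul_assoc, mul_one_div, div_self hH'0.ne', one_mul] at e3
  have e3 : ∫ x in R..(R + H), (E x) ^ 2 ≤ ∫ x in R..(R + H'), (E x) ^ 2 :=
    intervalIntegral.integral_mono_interval le_rfl (by linarith) (by linarith)
      (Eventually.of_forall fun x => sq_nonneg _) (E_int hEm hEb hRpos (by linarith)).2
  refine (e3.trans hw2).trans ?_
  have e5 : H' ≤ (L + 1) * (H + (Real.log R) ^ (p + 1)) := by nlinarith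
  calc H' * (V + 1) ≤ ((L + 1) * (H + (Real.log R) ^ (p + 1))) * (V + 1) := mul_le_mul_of_nonneg_right e5 (by linarith)
    _ = _ := by ring

open Pool.Agent.H383.AP Pool.Agent.H383.Gen Pool.Agent.H383.GW
open Pool.Agent.W24.Riesz Pool.Agent.W24.Liou Pool.Agent.W24.Ar Pool.Agent.W24.Both
open Pool.Agent.Y938.Win

/-- **the measure of the set of large values in every window** -/
theorem large_gen {a : ℕ → ℝ} {φ κ₁ κ₂ C0 : ℝ} {w : ℝ → ℂ} (ha : Bd a) (ha0 : a 0 = 0) (hw : Wt w) (hC0 : 0 < C0)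
    (hS : Sand E a φ w κ₁ κ₂ C0) (hLB : LBp a) (hEm : Measurable E)
    (hEb : ∀ R₁ R₂ : ℝ, 0 < R₁ → ∃ B : ℝ, ∀ R, R₁ ≤ R → R ≤ R₂ → |E R| ≤ B) {q : ℕ} {C R₀ : ℝ} (hC : 0 < C) (hR₀ : 4 ≤ R₀)
    (hms : ∀ R H : ℝ, R₀ ≤ R → 0 < H → H ≤ R → ∫ x in R..(R + H), (E x) ^ 2 ≤ C * (H + (Real.log R) ^ (q + 1))) :
    ∃ H₀ : ℝ, 4 ≤ H₀ ∧ ∀ R H : ℝ, H₀ ≤ H → H ≤ R → ∀ s : ℝ, (s = 1 ∨ s = -1) →
    H ^ 2 * Real.exp (-(√(Real.log H) / 2)) / (H + (Real.log R) ^ (q + 1)) ≤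
      volume.real {r : ℝ | R < r ∧ r ≤ R + H ∧
        Real.exp (c1 * (Real.log (Real.log H)) ^ (1 / 4 : ℝ) * (Real.log (Real.log (Real.log H))) ^ (-(3 / 4) : ℝ)) ≤ s * E r} := by
  obtain ⟨h1, hcore⟩ := core_int ha ha0 hw hC0 hS
  obtain ⟨h2, hpr⟩ := primes_h one_pos
  obtain ⟨cf, hcf, hLf⟩ := hLB
  obtain ⟨h3, hV⟩ := eventually_atTop.mp (ev_V (C0 := 4 * C0 + 3) hcf)
  -- 80 h log h ≤ 2 ^ h
  have hpow : ∀ᶠ h : ℕ in atTop, 80 * (h:ℝ) * Real.log h ≤ 2 ^ h := by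
    have t1 := tendsto_pow_const_div_const_pow_of_one_lt 2 (show (1:ℝ) < 2 by norm_num)
    have t2 := t1.eventually (gt_mem_nhds (show (0:ℝ) < 1/80 by norm_num))
    filter_upwards [t2, eventually_ge_atTop 1] with h t3 t4
    have hR : (1:ℝ) ≤ h := by exact_mod_cast t4
    rw [div_lt_iff₀ (by positivity)] at t3
    have t5 : Real.log h ≤ h := (Real.log_le_sub_one_of_pos (by linarith)).trans (by linarith)
    nlinarith
  obtain ⟨h4, hp4⟩ := eventually_atTop.mp hpow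
  obtain ⟨h5, hp5⟩ := exists_nat_ge C
  obtain ⟨H0, hH0⟩ := eventually_atTop.mp (ev_H (max (max (max h1 h2) (max (max h3 h4) 3)) h5))
  refine ⟨max H0 R₀, hR₀.trans (le_max_right _ _), fun R H hH hHR s hs => ?_⟩
  obtain ⟨h, hh, a1, a3⟩ := hH0 H ((le_max_left _ _).trans hH)
  have hHR0 : R₀ ≤ H := (le_max_right _ _).trans hH
  have hH4 : 4 ≤ H := by linarith
  have hR4 : 4 ≤ R := by linarith
  obtain ⟨p, q1, q2, q3, q4, q5⟩ := hpr h (by omega)
  obtain ⟨v1, v2⟩ := hV h (by omega)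
  have hR3 : (3:ℝ) ≤ h := by exact_mod_cast (by omega : 3 ≤ h)
  have hsum := sum_af_ge hcf hLf q1 q2 q3 q5
  have hG : (h:ℝ) * (80 * h * Real.log h) ^ (-(3/4):ℝ) = GG h := rfl
  rw [hG] at hsum
  have hple : ∀ i, p i ≤ 2 ^ h := by
    intro i
    have := (q5 i).trans (hp4 h (by omega))
    exact_mod_cast this
  have hH' : (2:ℝ) ^ (10000 * 4 ^ h) ≤ H := by linarith [show (0:ℝ) < (2:ℝ) ^ (10000 * 4 ^ h) by positivity]
  obtain ⟨hE1, hE2⟩ := E_int hEm hEb (R := R) (b := R + H) (by linarith) (by linarith)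
  obtain ⟨K, hKc, hK0, hKB, hK1, hK2⟩ := hcore h (by omega) p q1 q3 hple R H hR4 hHR hH' s hs hE1
  obtain ⟨A, hA⟩ : ∃ A : ℝ, A = ∑ S : JJ (Fin h), a (dd p S) := ⟨_, rfl⟩
  rw [← hA] at hsum hK2
  have hlogR : 0 < (Real.log R) ^ (q + 1) := pow_pos (Real.log_pos (by linarith)) _
  obtain ⟨LL, hLL⟩ : ∃ LL : ℝ, LL = (Real.log R) ^ (q + 1) := ⟨_, rfl⟩
  rw [← hLL] at hlogR
  have hI : 0 < C * (H + LL) := mul_pos hC (by linarith)
  have hVV : Real.exp (GG h / 2) ≤ 1 / 3 * A - (3 + 4 * C0) := by linarith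
  have hV0 : 0 ≤ 1 / 3 * A - (3 + 4 * C0) := (Real.exp_pos _).le.trans hVV
  have hms' : ∫ x in R..(R + H), (E x) ^ 2 ≤ C * (H + LL) := by
    rw [hLL]
    exact hms R H (by linarith) (by linarith) hHR
  have hmain := meas_core hEm (by linarith : 0 < H) hE1 hE2 hKc hK0 (B := 2 ^ (2 ^ h)) (by positivity) hKB hK1 hs hV0 hK2
    (by linarith) hI hms'
  -- compare the sets
  have hmono : volume.real {r : ℝ | R < r ∧ r ≤ R + H ∧ 1 / 3 * A - (3 + 4 * C0) ≤ s * E r} ≤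
      volume.real {r : ℝ | R < r ∧ r ≤ R + H ∧
        Real.exp (c1 * (Real.log (Real.log H)) ^ (1 / 4 : ℝ) * (Real.log (Real.log (Real.log H))) ^ (-(3 / 4) : ℝ)) ≤ s * E r} := by
    apply measureReal_mono
    · intro r hr
      refine ⟨hr.1, hr.2.1, ?_⟩
      refine le_trans ?_ hr.2.2
      exact (Real.exp_le_exp.mpr a3).trans hVV
    · apply ne_of_lt
      refine lt_of_le_of_lt (measure_mono (t := Set.Ioc R (R + H)) fun r hr => ⟨hr.1, hr.2.1⟩) ?_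
      rw [Real.volume_Ioc]
      exact ENNReal.ofReal_lt_top
  refine le_trans ?_ (hmain.trans hmono)
  -- compare the constants
  obtain ⟨T, hT⟩ : ∃ T : ℝ, T = 2 ^ h := ⟨_, rfl⟩
  have hT1 : 1 ≤ T := by rw [hT]; exact one_le_pow₀ (by norm_num)
  have hCT : C ≤ Real.exp T := by
    have e1 : (h5 : ℝ) ≤ h := by exact_mod_cast (by omega : h5 ≤ h)
    have e2 : (h : ℝ) ≤ T := by
      rw [hT]
      exact_mod_cast (Nat.lt_two_pow_self (n := h)).le
    have e3 := Real.add_one_le_exp T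
    linarith
  have hB : ((2 : ℝ) ^ (2 ^ h)) ^ 2 ≤ Real.exp (2 * T) := by
    have e1 : ((2 : ℝ) ^ (2 ^ h)) = Real.exp (T * Real.log 2) := by
      rw [mul_comm, ← Real.rpow_def_of_pos (by norm_num), hT, ← Real.rpow_natCast]
      congr 1
      push_cast
      rfl
    rw [e1, ← Real.exp_nat_mul]
    apply Real.exp_le_exp.mpr
    have := Real.log_two_lt_d9
    push_cast
    nlinarith
  have hsq : 80 * T ≤ √(Real.log H) := by
    apply Real.le_sqrt_of_sq_le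
    have e1 : Real.log ((2:ℝ) ^ (10000 * 4 ^ h)) ≤ Real.log H := Real.log_le_log (by positivity) hH'
    rw [Real.log_pow] at e1
    have e2 : ((10000 * 4 ^ h : ℕ) : ℝ) = 10000 * T ^ 2 := by
      push_cast
      rw [hT, ← pow_mul, mul_comm h 2, pow_mul]
      norm_num
    rw [e2] at e1
    have := Real.log_two_gt_d9
    nlinarith [sq_nonneg T]
  have hfin : ((2 : ℝ) ^ (2 ^ h)) ^ 2 * C ≤ Real.exp (√(Real.log H) / 2) := by
    calc ((2 : ℝ) ^ (2 ^ h)) ^ 2 * C ≤ Real.exp (2 * T) * Real.exp T := by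
          apply mul_le_mul hB hCT hC.le (Real.exp_pos _).le
      _ = Real.exp (3 * T) := by rw [← Real.exp_add]; ring_nf
      _ ≤ _ := Real.exp_le_exp.mpr (by linarith)
  rw [Real.exp_neg, ← hLL]
  have hHl : 0 < H + LL := by linarith
  rw [div_le_div_iff₀ hHl (by positivity)]
  have g1 : (Real.exp (√(Real.log H) / 2))⁻¹ * (((2 : ℝ) ^ (2 ^ h)) ^ 2 * C) ≤ 1 := by
    rw [inv_mul_le_iff₀ (Real.exp_pos _), mul_one]
    exact hfin
  calc H ^ 2 * (Real.exp (√(Real.log H) / 2))⁻¹ * (((2 : ℝ) ^ (2 ^ h)) ^ 2 * (C * (H + LL)))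
      = H ^ 2 * (H + LL) * ((Real.exp (√(Real.log H) / 2))⁻¹ * (((2 : ℝ) ^ (2 ^ h)) ^ 2 * C)) := by ring
    _ ≤ H ^ 2 * (H + LL) * 1 := mul_le_mul_of_nonneg_left g1 (by positivity)
    _ ≤ 4 * H ^ 2 * (H + LL) := by
        have : 0 ≤ H ^ 2 * (H + LL) := by positivity
        linarith

end Pool.Agent.H648_nf
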