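import Pool.Agent.H648_nf.Ker

set_option autoImplicit false

/-! Near diagonal sums of the divisor function, and off-diagonal sums from near diagonal sums. -/

namespace Pool.Agent.H648_nf

open Finset
open Pool.Agent.H648_sw (G G_nonneg G_symm G_near G_far ph ph_nonneg ph_neg bx mem_bx inner_sum union_le Bj Bj_nonneg bw bw_nonneg bw_sq)

/-! ### divisors -/

lemma card_div_le (m : ℕ) : m.divisors.card ≤ 2 * (m.divisors.filter (fun a => a * a ≤ m)).card := by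
  rcases Nat.eq_zero_or_pos m with rfl | hm
  · simp
  have h1 : (m.divisors.filter (fun a => ¬ a * a ≤ m)).card ≤ (m.divisors.filter (fun a => a * a ≤ m)).card := by
    apply card_le_card_of_injOn (fun a => m / a)
    · intro a ha
      simp only [coe_filter, Set.mem_ofPred_eq, Nat.mem_divisors, not_le] at ha ⊢
      obtain ⟨⟨⟨b, hb⟩, h0⟩, h2⟩ := ha
      have ha0 : 0 < a := by
        rcases Nat.eq_zero_or_pos a with rfl | h
        · simp at hb; omega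
        · exact h
      have e1 : m / a = b := by rw [hb]; exact Nat.mul_div_cancel_left _ ha0
      rw [e1]
      refine ⟨⟨Dvd.intro_left a hb.symm, h0⟩, ?_⟩
      have h3 : b < a := by
        rw [hb] at h2
        exact lt_of_mul_lt_mul_left h2 (Nat.zero_le a)
      rw [hb]
      exact Nat.mul_le_mul_right _ h3.le
    · intro a ha b hb hab
      simp only [coe_filter, Set.mem_ofPred_eq, Nat.mem_divisors, not_le] at ha hb hab
      have e1 := Nat.mul_div_cancel' ha.1.1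
      have e2 := Nat.mul_div_cancel' hb.1.1
      rw [hab] at e1
      have h3 : 0 < m / b := Nat.div_pos (Nat.le_of_dvd hm hb.1.1) (Nat.pos_of_dvd_of_pos hb.1.1 hm)
      exact Nat.eq_of_mul_eq_mul_right h3 (e1.trans e2.symm)
  have h2 := card_filter_add_card_filter_not (s := m.divisors) (fun a => a * a ≤ m)
  omega

lemma div_sum {B : ℕ} (F : ℕ → ℝ) (hF : ∀ m, 0 ≤ F m) :
    ∑ m ∈ Ico 1 B, (m.divisors.card : ℝ) * F m ≤ 2 * ∑ a ∈ Icc 1 (Nat.sqrt B), ∑ b ∈ Icc 1 (B / a), F (a * b) := by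
  have h1 : ∀ m ∈ Ico 1 B, (m.divisors.card : ℝ) * F m ≤ 2 * ∑ a ∈ Icc 1 (Nat.sqrt B), if a ∣ m then F m else 0 := by
    intro m hm
    rw [mem_Ico] at hm
    rw [← sum_filter, sum_const, nsmul_eq_mul, ← mul_assoc]
    apply mul_le_mul_of_nonneg_right _ (hF m)
    have h2 := card_div_le m
    have h3 : (m.divisors.filter (fun a => a * a ≤ m)).card ≤ ((Icc 1 (Nat.sqrt B)).filter (fun a => a ∣ m)).card := by
      apply card_le_card
      intro a ha
      rw [mem_filter, Nat.mem_divisors] at ha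
      rw [mem_filter, mem_Icc]
      refine ⟨⟨Nat.pos_of_dvd_of_pos ha.1.1 (by omega), ?_⟩, ha.1.1⟩
      rw [Nat.le_sqrt]
      omega
    exact_mod_cast h2.trans (Nat.mul_le_mul_left 2 h3)
  refine (sum_le_sum h1).trans ?_
  rw [← mul_sum, sum_comm]
  apply mul_le_mul_of_nonneg_left _ (by norm_num)
  refine sum_le_sum fun a ha => ?_
  rw [mem_Icc] at ha
  rw [← sum_filter, ← sum_image (s := Icc 1 (B / a)) (g := fun b : ℕ => a * b) (f := F) (by
    intro x _ y _ hxy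
    exact Nat.eq_of_mul_eq_mul_left ha.1 hxy)]
  apply sum_le_sum_of_subset_of_nonneg _ (fun m _ _ => hF m)
  intro m hm
  rw [mem_filter, mem_Ico] at hm
  obtain ⟨b, hb⟩ := hm.2
  rw [mem_image]
  refine ⟨b, ?_, hb.symm⟩
  rw [mem_Icc]
  constructor
  · rcases Nat.eq_zero_or_pos b with rfl | h
    · simp at hb; omega
    · exact h
  · rw [Nat.le_div_iff_mul_le ha.1, mul_comm, ← hb]
    exact hm.1.2.le

/-- the sum over `b` and `d` -/
lemma bd_sum1 {A : ℝ} (hA : 0 < A) {B a c : ℕ} (hc : 1 ≤ c) (hca : c ≤ a) (hac : a * c ≤ B) :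
    ∑ b ∈ Icc 1 (B / a), ∑ d ∈ Icc 1 (B / c), (if c * d ≠ a * b then ph A (((a * b : ℕ) : ℤ) - ((c * d : ℕ) : ℤ)) else 0) ≤
      18 * A * B * (1 / a * (1 / c)) := by
  have ha : 1 ≤ a := hc.trans hca
  have ha0 : (0 : ℝ) < a := by exact_mod_cast ha
  have hc0 : (0 : ℝ) < c := by exact_mod_cast hc
  obtain ⟨N, hN⟩ : ∃ N, N = B / c := ⟨_, rfl⟩
  have hin := inner_sum hA (p := (a : ℤ)) (q := -(c : ℤ)) (by exact_mod_cast (by omega : a ≠ 0)) N
  have h1 : ∑ b ∈ Icc 1 (B / a), ∑ d ∈ Icc 1 (B / c), (if c * d ≠ a * b then ph A (((a * b : ℕ) : ℤ) - ((c * d : ℕ) : ℤ)) else 0) ≤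
      ∑ t ∈ (bx N).filter (fun t => (a : ℤ) * t.1 + -(c : ℤ) * t.2 ≠ 0), ph A ((a : ℤ) * t.1 + -(c : ℤ) * t.2) := by
    rw [← sum_product' (Icc 1 (B / a)) (Icc 1 (B / c)) (fun b d => if c * d ≠ a * b then ph A (((a * b : ℕ) : ℤ) - ((c * d : ℕ) : ℤ)) else 0),
      ← sum_filter (s := Icc 1 (B / a) ×ˢ Icc 1 (B / c)) (p := fun x : ℕ × ℕ => c * x.2 ≠ a * x.1)
        (f := fun x : ℕ × ℕ => ph A (((a * x.1 : ℕ) : ℤ) - ((c * x.2 : ℕ) : ℤ)))]
    obtain ⟨F, hF⟩ : ∃ F : ℤ × ℤ → ℝ, F = fun t : ℤ × ℤ => ph A ((a : ℤ) * t.1 + -(c : ℤ) * t.2) := ⟨_, rfl⟩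
    have e1 : ∀ x : ℕ × ℕ, ph A (((a * x.1 : ℕ) : ℤ) - ((c * x.2 : ℕ) : ℤ)) = F ((x.1 : ℤ), (x.2 : ℤ)) := by
      intro x
      rw [hF]
      simp only
      congr 1
      push_cast
      ring
    rw [sum_congr rfl fun x _ => e1 x, ← sum_image (f := F) (g := fun x : ℕ × ℕ => ((x.1 : ℤ), (x.2 : ℤ))) (by
      intro x _ y _ hxy
      simp only [Prod.mk.injEq, Nat.cast_inj] at hxy
      exact Prod.ext hxy.1 hxy.2)]
    have e2 : ∑ t ∈ (bx N).filter (fun t => (a : ℤ) * t.1 + -(c : ℤ) * t.2 ≠ 0), ph A ((a : ℤ) * t.1 + -(c : ℤ) * t.2) =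
        ∑ t ∈ (bx N).filter (fun t => (a : ℤ) * t.1 + -(c : ℤ) * t.2 ≠ 0), F t := by rw [hF]
    rw [e2]
    apply sum_le_sum_of_subset_of_nonneg _ (fun t _ _ => by rw [hF]; exact ph_nonneg _ _)
    intro t ht
    rw [mem_image] at ht
    obtain ⟨x, hx, rfl⟩ := ht
    rw [mem_filter, mem_product, mem_Icc, mem_Icc] at hx
    rw [mem_filter, mem_bx, hN]
    simp only [Nat.abs_cast]
    refine ⟨⟨?_, ?_⟩, ?_⟩
    · have : B / a ≤ B / c := Nat.div_le_div_left hca hc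
      exact_mod_cast hx.1.1.2.trans this
    · exact_mod_cast hx.1.2.2
    · intro h0
      apply hx.2
      have h3 : (c : ℤ) * x.2 = a * x.1 := by linarith
      exact_mod_cast h3
  refine h1.trans (hin.trans ?_)
  have h2 : (N : ℝ) ≤ B / c := by rw [hN]; exact Nat.cast_div_le
  have h3 : ((a : ℝ) * c) ≤ B := by exact_mod_cast hac
  have h4 : |((a : ℤ) : ℝ)| = a := by simp
  rw [h4]
  have h5 : 2 * (N : ℝ) / a ≤ 2 * (B / c) / a := div_le_div_of_nonneg_right (by linarith) ha0.le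
  have h6 : (1 : ℝ) ≤ B * (1 / a * (1 / c)) := by
    rw [show (B : ℝ) * (1 / a * (1 / c)) = B / (a * c) by field_simp, le_div_iff₀ (by positivity)]
    linarith
  calc 6 * A * (2 * (N : ℝ) / a + 1) ≤ 6 * A * (2 * (B / c) / a + B * (1 / a * (1 / c))) :=
        mul_le_mul_of_nonneg_left (add_le_add h5 h6) (by positivity)
    _ = 18 * A * B * (1 / a * (1 / c)) := by field_simp; ring

lemma bd_sum {A : ℝ} (hA : 0 < A) {B a c : ℕ} (ha : 1 ≤ a) (hc : 1 ≤ c) (hac : a * c ≤ B) :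
    ∑ b ∈ Icc 1 (B / a), ∑ d ∈ Icc 1 (B / c), (if c * d ≠ a * b then ph A (((a * b : ℕ) : ℤ) - ((c * d : ℕ) : ℤ)) else 0) ≤
      18 * A * B * (1 / a * (1 / c)) := by
  rcases le_total c a with h | h
  · exact bd_sum1 hA hc h hac
  · have hac2 : c * a ≤ B := by rw [mul_comm]; exact hac
    have h1 := bd_sum1 hA ha h hac2
    rw [sum_comm]
    refine le_trans (le_of_eq ?_) (h1.trans (le_of_eq (by ring)))
    refine sum_congr rfl fun d _ => sum_congr rfl fun b _ => ?_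
    by_cases h2 : c * d = a * b
    · rw [if_neg (by simp [h2]), if_neg (by simp [h2])]
    · rw [if_pos h2, if_pos (fun h3 => h2 h3.symm), ← ph_neg]
      congr 1
      ring

/-- the near sum -/
lemma near_div {A : ℝ} (hA : 0 < A) {B : ℕ} (hB : 1 ≤ B) :
    ∑ m ∈ Ico 1 B, (m.divisors.card : ℝ) * ∑ j ∈ (Ico 1 B).filter (fun j => j ≠ m), (j.divisors.card : ℝ) * ph A ((m : ℤ) - j) ≤
      72 * A * B * (1 + Real.log (Nat.sqrt B)) ^ 2 := by
  obtain ⟨s, hs⟩ : ∃ s, s = Nat.sqrt B := ⟨_, rfl⟩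
  have hQ : ∀ m : ℕ, ∑ j ∈ (Ico 1 B).filter (fun j => j ≠ m), (j.divisors.card : ℝ) * ph A ((m : ℤ) - j) ≤
      2 * ∑ c ∈ Icc 1 s, ∑ d ∈ Icc 1 (B / c), (if c * d ≠ m then ph A ((m : ℤ) - ((c * d : ℕ) : ℤ)) else 0) := by
    intro m
    rw [sum_filter]
    have h1 := div_sum (B := B) (fun j => if j ≠ m then ph A ((m : ℤ) - (j : ℤ)) else 0) (fun j => by
      split_ifs
      · exact ph_nonneg _ _
      · exact le_rfl)
    rw [← hs] at h1
    refine le_trans (le_of_eq ?_) h1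
    refine sum_congr rfl fun j _ => ?_
    by_cases h2 : j = m
    · rw [if_neg (by simp [h2]), if_neg (by simp [h2]), mul_zero]
    · rw [if_pos h2, if_pos h2]
  have hQ0 : ∀ m : ℕ, 0 ≤ ∑ c ∈ Icc 1 s, ∑ d ∈ Icc 1 (B / c), (if c * d ≠ m then ph A ((m : ℤ) - ((c * d : ℕ) : ℤ)) else 0) := by
    intro m
    refine sum_nonneg fun c _ => sum_nonneg fun d _ => ?_
    split_ifs
    · exact ph_nonneg _ _
    · exact le_rfl
  have h1 : ∑ m ∈ Ico 1 B, (m.divisors.card : ℝ) * ∑ j ∈ (Ico 1 B).filter (fun j => j ≠ m), (j.divisors.card : ℝ) * ph A ((m : ℤ) - j) ≤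
      2 * ∑ m ∈ Ico 1 B, (m.divisors.card : ℝ) *
        ∑ c ∈ Icc 1 s, ∑ d ∈ Icc 1 (B / c), (if c * d ≠ m then ph A ((m : ℤ) - ((c * d : ℕ) : ℤ)) else 0) := by
    rw [mul_sum]
    refine sum_le_sum fun m _ => ?_
    calc (m.divisors.card : ℝ) * ∑ j ∈ (Ico 1 B).filter (fun j => j ≠ m), (j.divisors.card : ℝ) * ph A ((m : ℤ) - j)
        ≤ (m.divisors.card : ℝ) * (2 * ∑ c ∈ Icc 1 s, ∑ d ∈ Icc 1 (B / c), (if c * d ≠ m then ph A ((m : ℤ) - ((c * d : ℕ) : ℤ)) else 0)) :=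
          mul_le_mul_of_nonneg_left (hQ m) (Nat.cast_nonneg _)
      _ = _ := by ring
  have h2 := div_sum (B := B) (fun m => ∑ c ∈ Icc 1 s, ∑ d ∈ Icc 1 (B / c), (if c * d ≠ m then ph A ((m : ℤ) - ((c * d : ℕ) : ℤ)) else 0)) hQ0
  rw [← hs] at h2
  have h3 : ∑ a ∈ Icc 1 s, ∑ b ∈ Icc 1 (B / a), ∑ c ∈ Icc 1 s, ∑ d ∈ Icc 1 (B / c),
      (if c * d ≠ a * b then ph A (((a * b : ℕ) : ℤ) - ((c * d : ℕ) : ℤ)) else 0) ≤
      ∑ a ∈ Icc 1 s, ∑ c ∈ Icc 1 s, 18 * A * B * (1 / (a : ℝ) * (1 / (c : ℝ))) := by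
    refine sum_le_sum fun a ha => ?_
    rw [sum_comm]
    refine sum_le_sum fun c hc => ?_
    rw [mem_Icc] at ha hc
    refine bd_sum hA ha.1 hc.1 ?_
    calc a * c ≤ s * s := Nat.mul_le_mul ha.2 hc.2
      _ ≤ B := by rw [hs]; exact Nat.sqrt_le B
  have h4 : ∑ a ∈ Icc 1 s, ∑ c ∈ Icc 1 s, 18 * A * B * (1 / (a : ℝ) * (1 / (c : ℝ))) = 18 * A * B * (∑ a ∈ Icc 1 s, 1 / (a : ℝ)) ^ 2 := by
    rw [sq, sum_mul_sum, mul_sum]
    refine sum_congr rfl fun a _ => ?_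
    rw [mul_sum]
  have h5 : ∑ a ∈ Icc 1 s, 1 / (a : ℝ) ≤ 1 + Real.log s := by
    have := harmonic_le_one_add_log s
    rw [harmonic_eq_sum_Icc] at this
    push_cast at this
    simpa [one_div] using this
  have h6 : 0 ≤ ∑ a ∈ Icc 1 s, 1 / (a : ℝ) := sum_nonneg fun a _ => by positivity
  have h7 : (∑ a ∈ Icc 1 s, 1 / (a : ℝ)) ^ 2 ≤ (1 + Real.log s) ^ 2 := pow_le_pow_left₀ h6 h5 2
  rw [← hs]
  have h8 : 18 * A * B * (∑ a ∈ Icc 1 s, 1 / (a : ℝ)) ^ 2 ≤ 18 * A * B * (1 + Real.log s) ^ 2 :=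
    mul_le_mul_of_nonneg_left h7 (by positivity)
  rw [h4] at h3
  linarith

/-- near diagonal sums -/
def TB (p : ℕ) (r : ℕ → ℝ) : Prop := ∃ D : ℝ, 0 < D ∧ ∀ H : ℝ, 1 ≤ H → ∀ X : ℕ, 1 ≤ X → ∀ S : Finset ℕ, (∀ m ∈ S, 1 ≤ m) →
  ∑ m ∈ Ico 1 X, r m * ∑ j ∈ S.filter (fun j => j ≠ m), r j * G H m j ≤ D * (√(X : ℝ)) ^ 3 * (1 + Real.log X) ^ p / H

lemma card_le_sqrt (m : ℕ) : (m.divisors.card : ℝ) ≤ 2 * √(m : ℝ) := by
  have h1 := card_div_le m
  have h2 : (m.divisors.filter (fun a => a * a ≤ m)).card ≤ (Icc 1 (Nat.sqrt m)).card := by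
    apply card_le_card
    intro a ha
    rw [mem_filter] at ha
    rw [mem_Icc]
    refine ⟨Nat.pos_of_mem_divisors ha.1, ?_⟩
    rw [Nat.le_sqrt]
    exact ha.2
  rw [Nat.card_Icc, Nat.add_sub_cancel] at h2
  have h3 : (m.divisors.card : ℝ) ≤ 2 * (Nat.sqrt m : ℝ) := by exact_mod_cast h1.trans (Nat.mul_le_mul_left 2 h2)
  have h4 : ((Nat.sqrt m : ℕ) : ℝ) ≤ √(m : ℝ) := Real.nat_sqrt_le_real_sqrt
  linarith

/-- **near diagonal sums of the divisor function** -/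
theorem TB_div : TB 2 (fun m => (m.divisors.card : ℝ)) := by
  have hs : Summable (fun k : ℕ => (k : ℝ) ^ (-(3 / 2) : ℝ)) := by
    rw [Real.summable_nat_rpow]; norm_num
  obtain ⟨D, hD⟩ : ∃ D : ℝ, D = 2 * ∑' k : ℕ, (k : ℝ) ^ (-(3 / 2) : ℝ) := ⟨_, rfl⟩
  have hD0 : 0 ≤ D := by rw [hD]; exact mul_nonneg (by norm_num) (tsum_nonneg fun k => by positivity)
  refine ⟨1152 + 2 * D, by positivity, fun H hH X hX S hS => ?_⟩
  have hH0 : 0 < H := by linarith
  have hX1 : (1 : ℝ) ≤ X := by exact_mod_cast hX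
  obtain ⟨x, hx⟩ : ∃ x, x = √(X : ℝ) := ⟨_, rfl⟩
  have hx1 : 1 ≤ x := by rw [hx]; exact Real.one_le_sqrt.2 hX1
  have hx0 : 0 < x := by linarith
  have hxx : x * x = X := by rw [hx]; exact Real.mul_self_sqrt (by positivity)
  have hl0 : 0 ≤ Real.log X := Real.log_nonneg hX1
  obtain ⟨dd, hdd⟩ : ∃ dd : ℕ → ℝ, dd = fun m => (m.divisors.card : ℝ) := ⟨_, rfl⟩
  rw [← hx, ← hdd]
  have hd0 : ∀ m, 0 ≤ dd m := fun m => by rw [hdd]; exact Nat.cast_nonneg _
  have h1 : ∀ m ∈ Ico 1 X, ∑ j ∈ S.filter (fun j => j ≠ m), dd j * G H m j ≤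
      ∑ j ∈ (Ico 1 (4 * X)).filter (fun j => j ≠ m), dd j * ph (x / H) ((m : ℤ) - j) + 1 / H * D := by
    intro m hm
    rw [mem_Ico] at hm
    have hsub : S.filter (fun j => j ≠ m) ⊆ (Ico 1 (4 * X)).filter (fun j => j ≠ m) ∪ S.filter (fun j => 4 * X ≤ j) := by
      intro j hj
      rw [mem_filter] at hj
      rw [mem_union, mem_filter, mem_filter, mem_Ico]
      have := hS j hj.1
      by_cases h : j < 4 * X
      · exact Or.inl ⟨⟨this, h⟩, hj.2⟩
      · exact Or.inr ⟨hj.1, by omega⟩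
    have hnn : ∀ j, 0 ≤ dd j * G H m j := fun j => mul_nonneg (hd0 _) (G_nonneg _ _ _)
    refine (sum_le_sum_of_subset_of_nonneg hsub fun j _ _ => hnn j).trans ?_
    refine (union_le _ _ _ hnn).trans ?_
    apply add_le_add
    · refine sum_le_sum fun j hj => ?_
      rw [mem_filter, mem_Ico] at hj
      apply mul_le_mul_of_nonneg_left _ (hd0 j)
      apply G_near hH hx0
      · rw [hx]
        apply Real.sqrt_le_sqrt
        exact_mod_cast hm.2.le
      · have h4 : 2 * x = √(4 * (X : ℝ)) := by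
          rw [hx, Real.sqrt_mul (by norm_num), show (4 : ℝ) = 2 ^ 2 by norm_num, Real.sqrt_sq (by norm_num)]
        rw [h4]
        apply Real.sqrt_le_sqrt
        exact_mod_cast hj.1.2.le
    · refine le_trans (sum_le_sum (g := fun j : ℕ => 1 / H * (2 * (j : ℝ) ^ (-(3 / 2) : ℝ))) ?_) ?_
      · intro j hj
        rw [mem_filter] at hj
        have hj1 := hS j hj.1
        have hj0 : (0 : ℝ) < j := by exact_mod_cast hj1
        have h2 := G_far hH hj1 (show 4 * m ≤ j by omega)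
        have h3 : dd j ≤ 2 * √(j : ℝ) := by rw [hdd]; exact card_le_sqrt j
        calc dd j * G H m j ≤ (2 * √(j : ℝ)) * (1 / H * (1 / (j : ℝ) ^ 2)) :=
              mul_le_mul h3 h2 (G_nonneg _ _ _) (by positivity)
          _ = 1 / H * (2 * (√(j : ℝ) * (1 / (j : ℝ) ^ 2))) := by ring
          _ = 1 / H * (2 * (j : ℝ) ^ (-(3 / 2) : ℝ)) := by
              congr 2
              rw [one_div, ← Real.rpow_natCast, ← Real.rpow_neg hj0.le, Real.sqrt_eq_rpow, ← Real.rpow_add hj0]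
              norm_num
      · rw [← mul_sum, ← mul_sum, hD]
        apply mul_le_mul_of_nonneg_left _ (by positivity)
        exact mul_le_mul_of_nonneg_left (hs.sum_le_tsum _ fun k _ => by positivity) (by norm_num)
  refine (sum_le_sum fun m hm => mul_le_mul_of_nonneg_left (h1 m hm) (hd0 m)).trans ?_
  simp only [mul_add, sum_add_distrib]
  -- the near part
  have h2 : ∑ m ∈ Ico 1 X, dd m * ∑ j ∈ (Ico 1 (4 * X)).filter (fun j => j ≠ m), dd j * ph (x / H) ((m : ℤ) - j) ≤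
      1152 * x ^ 3 * (1 + Real.log X) ^ 2 / H := by
    have e1 : ∑ m ∈ Ico 1 X, dd m * ∑ j ∈ (Ico 1 (4 * X)).filter (fun j => j ≠ m), dd j * ph (x / H) ((m : ℤ) - j) ≤
        ∑ m ∈ Ico 1 (4 * X), dd m * ∑ j ∈ (Ico 1 (4 * X)).filter (fun j => j ≠ m), dd j * ph (x / H) ((m : ℤ) - j) := by
      apply sum_le_sum_of_subset_of_nonneg
      · intro m hm
        rw [mem_Ico] at hm ⊢
        omega
      · intro m _ _
        exact mul_nonneg (hd0 m) (sum_nonneg fun j _ => mul_nonneg (hd0 j) (ph_nonneg _ _))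
    refine e1.trans ?_
    have e2 := near_div (show 0 < x / H by positivity) (B := 4 * X) (by omega)
    rw [hdd]
    refine e2.trans ?_
    have hs1 : 1 ≤ Nat.sqrt (4 * X) := by
      rw [Nat.le_sqrt]
      omega
    have e3 : Real.log (Nat.sqrt (4 * X)) ≤ 1 + Real.log X := by
      have f1 : ((Nat.sqrt (4 * X) : ℕ) : ℝ) ≤ 2 * x := by
        have := Real.nat_sqrt_le_real_sqrt (a := 4 * X)
        refine this.trans (le_of_eq ?_)
        push_cast
        rw [hx, Real.sqrt_mul (by norm_num), show (4 : ℝ) = 2 ^ 2 by norm_num, Real.sqrt_sq (by norm_num)]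
      have f2 : Real.log (Nat.sqrt (4 * X)) ≤ Real.log (2 * x) :=
        Real.log_le_log (by exact_mod_cast hs1) f1
      have f3 : Real.log (2 * x) = Real.log 2 + Real.log x := Real.log_mul (by norm_num) hx0.ne'
      have f4 : Real.log x ≤ Real.log X := by
        apply Real.log_le_log hx0
        rw [← hxx]
        nlinarith
      have := Real.log_two_lt_d9
      linarith
    have e4 : 0 ≤ Real.log (Nat.sqrt (4 * X)) := Real.log_nonneg (by exact_mod_cast hs1)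
    have e5 : (1 + Real.log (Nat.sqrt (4 * X))) ^ 2 ≤ (2 * (1 + Real.log X)) ^ 2 := by
      apply pow_le_pow_left₀ (by linarith)
      linarith
    push_cast
    calc 72 * (x / H) * (4 * (X : ℝ)) * (1 + Real.log (Nat.sqrt (4 * X))) ^ 2 ≤ 72 * (x / H) * (4 * (X : ℝ)) * (2 * (1 + Real.log X)) ^ 2 :=
          mul_le_mul_of_nonneg_left e5 (by positivity)
      _ = 1152 * x ^ 3 * (1 + Real.log X) ^ 2 / H := by rw [← hxx]; ring
  have h3 : ∑ m ∈ Ico 1 X, dd m * (1 / H * D) ≤ 2 * D * x ^ 3 * (1 + Real.log X) ^ 2 / H := by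
    rw [← sum_mul]
    have e1 : ∑ m ∈ Ico 1 X, dd m ≤ 2 * x ^ 3 := by
      calc ∑ m ∈ Ico 1 X, dd m ≤ ∑ m ∈ Ico 1 X, 2 * x := by
            refine sum_le_sum fun m hm => ?_
            rw [mem_Ico] at hm
            have h3 : dd m ≤ 2 * √(m : ℝ) := by rw [hdd]; exact card_le_sqrt m
            have h4 : √(m : ℝ) ≤ x := by
              rw [hx]
              apply Real.sqrt_le_sqrt
              exact_mod_cast hm.2.le
            linarith
        _ = ((X - 1 : ℕ) : ℝ) * (2 * x) := by simp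
        _ ≤ (X : ℝ) * (2 * x) := by
            apply mul_le_mul_of_nonneg_right _ (by positivity)
            exact_mod_cast Nat.sub_le X 1
        _ = 2 * x ^ 3 := by rw [← hxx]; ring
    have e2 : (1 : ℝ) ≤ (1 + Real.log X) ^ 2 := one_le_pow₀ (by linarith)
    have e3 : 0 ≤ 1 / H * D := by positivity
    calc (∑ m ∈ Ico 1 X, dd m) * (1 / H * D) ≤ (2 * x ^ 3) * (1 / H * D) := mul_le_mul_of_nonneg_right e1 e3
      _ = (2 * D * x ^ 3 / H) * 1 := by ring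
      _ ≤ (2 * D * x ^ 3 / H) * (1 + Real.log X) ^ 2 := mul_le_mul_of_nonneg_left e2 (by positivity)
      _ = _ := by ring
  calc _ ≤ 1152 * x ^ 3 * (1 + Real.log X) ^ 2 / H + 2 * D * x ^ 3 * (1 + Real.log X) ^ 2 / H := add_le_add h2 h3
    _ = _ := by ring

end Pool.Agent.H648_nf
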