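import Pool.Agent.H648_nf.Tail
import Pool.Agent.H648_sw.Main

set_option autoImplicit false

/-! The limit law in all short windows, in the general interface. -/

namespace Pool.Agent.H648_nf

open MeasureTheory Filter Topology Finset
open Pool.Agent.R461.GC (ch norm_ch ch_cont U_trigS TrigS_cont compare Lam)
open Pool.Agent.H383.Gen (U Bd)
open Pool.Agent.H383.GW (Wt)
open Pool.Agent.H452R2.Win (SandW Bdw)
open Pool.Agent.H648_sw (wm wm_prob wm_supp wm_int wm_ch wm_scale)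

/-- `L (log R)^(p+1) ≤ R` for large `R` -/
lemma log_pow_le (p : ℕ) (L : ℝ) : ∃ R₁ : ℝ, ∀ R, R₁ ≤ R → L * (Real.log R) ^ (p + 1) ≤ R := by
  have h1 : (fun x : ℝ => (Real.log x) ^ (p + 1)) =o[atTop] (fun x : ℝ => x) := by
    have := isLittleO_log_rpow_atTop (r := 1 / ((p : ℝ) + 1)) (by positivity)
    have h2 := this.pow (n := p + 1) (by omega)
    refine h2.congr' (Eventually.of_forall fun x => rfl) ?_
    filter_upwards [eventually_ge_atTop 0] with x hx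
    rw [← Real.rpow_natCast, ← Real.rpow_mul hx]
    push_cast
    rw [one_div, inv_mul_cancel₀ (by positivity), Real.rpow_one]
  have h2 := h1.bound (show 0 < 1 / (|L| + 1) by positivity)
  obtain ⟨R₁, hR₁⟩ := Filter.eventually_atTop.1 (h2.and (eventually_ge_atTop 1))
  refine ⟨R₁, fun R hR => ?_⟩
  obtain ⟨h3, h4⟩ := hR₁ R hR
  have h5 : 0 ≤ Real.log R := Real.log_nonneg h4
  rw [Real.norm_eq_abs, abs_of_nonneg (pow_nonneg h5 _), Real.norm_eq_abs, abs_of_nonneg (show (0 : ℝ) ≤ R by linarith)] at h3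
  have h6 : L * (Real.log R) ^ (p + 1) ≤ (|L| + 1) * (Real.log R) ^ (p + 1) :=
    mul_le_mul_of_nonneg_right (by linarith [le_abs_self L]) (pow_nonneg h5 _)
  refine h6.trans ?_
  have h7 := mul_le_mul_of_nonneg_left h3 (show 0 ≤ |L| + 1 by positivity)
  refine h7.trans (le_of_eq ?_)
  have : |L| + 1 ≠ 0 := by positivity
  field_simp

/-- **the law in all short windows** -/
theorem law_win {E : ℝ → ℝ} {a : ℕ → ℝ} {φ κ₁ κ₂ : ℝ} {w : ℝ → ℂ} (ha : Bd a) (ha0 : a 0 = 0) {p : ℕ} (hp : Off p a)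
    (hw : Wt w) (hSW : SandW E a φ w κ₁ κ₂) (hEm : Measurable E)
    (hEb : ∀ R₁ R₂ : ℝ, 0 < R₁ → ∃ B : ℝ, ∀ R, R₁ ≤ R → R ≤ R₂ → |E R| ≤ B) {c : ℝ} (hc : 0 < c) (ν : Measure ℝ)
    (hν : ∀ c₁ c₂ K s : ℝ, 0 < c₁ → 1 / 3 < s → ∀ f : ℝ → ℝ, Continuous f → (∃ C : ℝ, ∀ x, |f x| ≤ C * (1 + x ^ 2)) → ∀ η : ℝ, 0 < η →
      ∃ T₀ : ℝ, ∀ T, T₀ ≤ T → ∀ μ : Measure ℝ, IsProbabilityMeasure μ → (∀ᵐ x ∂μ, c₁ ≤ x ∧ x ≤ c₂) →
        (∀ t : ℝ, T ^ (1 / 20 : ℝ) ≤ |t| → ‖∫ x, Complex.exp (((t * x : ℝ) : ℂ) * Complex.I) ∂μ‖ ≤ K * |t| ^ (-s)) →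
        |∫ x, f (E (c * (T * x))) ∂μ - ∫ x, f x ∂ν| ≤ η)
    (f : ℝ → ℝ) (hf : Continuous f) (hC : ∃ C : ℝ, ∀ x, |f x| ≤ C * (1 + x ^ 2)) (η : ℝ) (hη : 0 < η) :
    ∃ L R₀ : ℝ, 0 < L ∧ 4 ≤ R₀ ∧ ∀ R, R₀ ≤ R → ∀ H, L * (Real.log R) ^ (p + 1) ≤ H → H ≤ R →
      |∫ x, f (E x) ∂(wm R H) - ∫ x, f x ∂ν| ≤ η := by
  classical
  by_contra hcon
  push Not at hcon
  choose R hR H hH1 hH2 hbad using fun k : ℕ => hcon ((k : ℝ) + 1) ((k : ℝ) + 4) (by positivity) (by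
    linarith [(Nat.cast_nonneg k : (0 : ℝ) ≤ k)])
  have hk0 : ∀ k : ℕ, (0 : ℝ) ≤ k := fun k => Nat.cast_nonneg k
  have hk1 : ∀ k : ℕ, (0 : ℝ) < (k : ℝ) + 1 := fun k => by positivity
  have hRpos : ∀ k, 0 < R k := fun k => by linarith [hR k, hk0 k]
  have hlog : ∀ k, 1 ≤ Real.log (R k) := by
    intro k
    have e1 : Real.log 4 ≤ Real.log (R k) := Real.log_le_log (by norm_num) (by linarith [hR k, hk0 k])
    have e2 : Real.log 4 = 2 * Real.log 2 := by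
      rw [show (4 : ℝ) = 2 ^ 2 by norm_num, Real.log_pow]
      norm_num
    have := Real.log_two_gt_d9
    linarith
  have hlogp : ∀ k, 1 ≤ (Real.log (R k)) ^ (p + 1) := fun k => one_le_pow₀ (hlog k)
  have hHk : ∀ k : ℕ, (k : ℝ) + 1 ≤ H k := by
    intro k
    have := hH1 k
    nlinarith [hlogp k, hk0 k]
  have hHpos : ∀ k, 0 < H k := fun k => by linarith [hHk k, hk0 k]
  obtain ⟨P, hP⟩ : ∃ P : ℕ → Measure ℝ, P = fun k : ℕ => wm (R k) (H k) := ⟨_, rfl⟩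
  obtain ⟨Q, hQ⟩ : ∃ Q : ℕ → Measure ℝ, Q = fun k : ℕ => wm (c * ((k : ℝ) + 1)) (c * ((k : ℝ) + 1)) := ⟨_, rfl⟩
  have hck : ∀ k : ℕ, 0 < c * ((k : ℝ) + 1) := fun k => mul_pos hc (hk1 k)
  have hPp : ∀ k, IsProbabilityMeasure (P k) := fun k => by rw [hP]; exact wm_prob _ (hHpos k)
  have hQp : ∀ k, IsProbabilityMeasure (Q k) := fun k => by rw [hQ]; exact wm_prob _ (hck k)
  have hPb : ∀ k, ∃ B, ∀ᵐ x ∂(P k), |E x| ≤ B := by
    intro k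
    obtain ⟨B, hB⟩ := hEb (R k) (R k + H k) (hRpos k)
    refine ⟨B, ?_⟩
    rw [hP]
    filter_upwards [wm_supp] with x hx
    exact hB x hx.1.le hx.2
  have hQb : ∀ k, ∃ B, ∀ᵐ x ∂(Q k), |E x| ≤ B := by
    intro k
    obtain ⟨B, hB⟩ := hEb (c * ((k : ℝ) + 1)) (c * ((k : ℝ) + 1) + c * ((k : ℝ) + 1)) (hck k)
    refine ⟨B, ?_⟩
    rw [hQ]
    filter_upwards [wm_supp] with x hx
    exact hB x hx.1.le hx.2
  have hPch : ∀ θ ∈ Lam, θ ≠ 0 → Tendsto (fun k => ∫ x, ch θ x ∂(P k)) atTop (𝓝 0) := by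
    intro θ _ h0
    have hlim : Tendsto (fun k : ℕ => 2 / |θ| / ((k : ℝ) + 1)) atTop (𝓝 0) :=
      Tendsto.div_atTop tendsto_const_nhds (tendsto_atTop_add_const_right _ _ tendsto_natCast_atTop_atTop)
    apply squeeze_zero_norm _ hlim
    intro k
    rw [hP]
    refine (wm_ch h0 (hHpos k) _).trans ?_
    have : 0 < |θ| := abs_pos.2 h0
    exact div_le_div_of_nonneg_left (by positivity) (hk1 k) (hHk k)
  have hQch : ∀ θ ∈ Lam, θ ≠ 0 → Tendsto (fun k => ∫ x, ch θ x ∂(Q k)) atTop (𝓝 0) := by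
    intro θ _ h0
    have hlim : Tendsto (fun k : ℕ => 2 / |θ| / (c * ((k : ℝ) + 1))) atTop (𝓝 0) :=
      Tendsto.div_atTop tendsto_const_nhds
        ((tendsto_atTop_add_const_right _ _ tendsto_natCast_atTop_atTop).const_mul_atTop hc)
    apply squeeze_zero_norm _ hlim
    intro k
    rw [hQ]
    exact wm_ch h0 (hck k) _
  have hPu : ∀ η : ℝ, 0 < η → ∃ M₀ : ℕ, ∀ M, M₀ ≤ M → ∃ k₀ : ℕ, ∀ k, k₀ ≤ k →
      ∫ x, (E x - U a φ x M) ^ 2 ∂(P k) ≤ η := by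
    intro η' hη'
    obtain ⟨M₀, L, hL0, hM₀⟩ := tail_win ha ha0 hp hw hSW η' hη'
    refine ⟨M₀, fun M hM => ?_⟩
    obtain ⟨R₀, hR₀⟩ := hM₀ M hM
    obtain ⟨k₀, hk₀⟩ := exists_nat_ge (max R₀ L)
    refine ⟨k₀, fun k hk => ?_⟩
    have e1 : (k₀ : ℝ) ≤ k := by exact_mod_cast hk
    have e2 : R₀ ≤ k₀ := (le_max_left _ _).trans hk₀
    have e3 : L ≤ k₀ := (le_max_right _ _).trans hk₀
    rw [hP]
    apply hR₀ (R k) (by linarith [hR k]) (H k) _ (hH2 k)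
    refine le_trans ?_ (hH1 k)
    apply mul_le_mul_of_nonneg_right _ (by linarith [hlogp k])
    linarith
  have hQu : ∀ η : ℝ, 0 < η → ∃ M₀ : ℕ, ∀ M, M₀ ≤ M → ∃ k₀ : ℕ, ∀ k, k₀ ≤ k →
      ∫ x, (E x - U a φ x M) ^ 2 ∂(Q k) ≤ η := by
    intro η' hη'
    obtain ⟨M₀, L, hL0, hM₀⟩ := tail_win ha ha0 hp hw hSW η' hη'
    refine ⟨M₀, fun M hM => ?_⟩
    obtain ⟨R₀, hR₀⟩ := hM₀ M hM
    obtain ⟨R₁, hR₁⟩ := log_pow_le p L
    obtain ⟨k₀, hk₀⟩ := exists_nat_ge (max R₀ R₁ / c)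
    refine ⟨k₀, fun k hk => ?_⟩
    have e1 : (k₀ : ℝ) ≤ k := by exact_mod_cast hk
    have e4 : max R₀ R₁ ≤ c * ((k : ℝ) + 1) := by
      rw [div_le_iff₀ hc] at hk₀
      nlinarith
    rw [hQ]
    exact hR₀ _ ((le_max_left _ _).trans e4) _ (hR₁ _ ((le_max_right _ _).trans e4)) le_rfl
  obtain ⟨k₁, hk₁⟩ := compare (P := P) (Q := Q) hPch hQch hEm hPb hQb
    (u := fun M x => U a φ x M) (fun M => U_trigS a φ M) hPu hQu hf hC (show 0 < η / 2 by linarith)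
  obtain ⟨T₀, hT₀⟩ := hν 1 2 2 (2 / 5) one_pos (by norm_num) f hf hC (η / 2) (by linarith)
  obtain ⟨k₂, hk₂⟩ := exists_nat_ge T₀
  obtain ⟨k, hk⟩ : ∃ k, k = max k₁ k₂ := ⟨_, rfl⟩
  have hkk₁ : k₁ ≤ k := by rw [hk]; exact le_max_left _ _
  have hkk₂ : k₂ ≤ k := by rw [hk]; exact le_max_right _ _
  have e1 := hk₁ k hkk₁
  have e0 : (k₂ : ℝ) ≤ k := by exact_mod_cast hkk₂
  have e2 := hT₀ ((k : ℝ) + 1) (by linarith) (wm 1 1) (wm_prob 1 one_pos) (by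
    filter_upwards [wm_supp] with x hx
    exact ⟨hx.1.le, by linarith [hx.2]⟩) (by
    intro t ht
    have h1 : 1 ≤ |t| := (Real.one_le_rpow (by linarith [hk0 k]) (by norm_num)).trans ht
    have h0 : t ≠ 0 := by
      intro h
      rw [h, abs_zero] at h1
      linarith
    have h2 := wm_ch h0 one_pos 1
    unfold ch at h2
    refine h2.trans ?_
    rw [div_one, div_eq_mul_inv, ← Real.rpow_neg_one]
    apply mul_le_mul_of_nonneg_left _ (by norm_num)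
    exact Real.rpow_le_rpow_of_exponent_le h1 (by norm_num))
  have e4 : ∫ x, f (E (c * (((k : ℝ) + 1) * x))) ∂(wm 1 1) = ∫ x, f (E x) ∂(Q k) := by
    rw [hQ]
    simp only
    rw [wm_scale (hck k) (fun x => f (E x))]
    simp only [mul_assoc]
  rw [e4] at e2
  have e3 := hbad k
  rw [hP] at e1
  have g1 := abs_le.1 e1
  have g2 := abs_le.1 e2
  have g3 : |∫ x, f (E x) ∂(wm (R k) (H k)) - ∫ x, f x ∂ν| ≤ η := by
    rw [abs_le]
    constructor <;> linarith [g1.1, g1.2, g2.1, g2.2]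
  linarith

end Pool.Agent.H648_nf
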