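import Pool.Agent.H648_nf.TBo
import Pool.Agent.H648_nf.Law
import Pool.Agent.R461.GC.G8

set_option autoImplicit false

/-! The divisor problem in short windows. -/

namespace Pool.Agent.H648_nf

open MeasureTheory Filter Topology Finset
open Pool.Agent.H387R2.Vor (Ed Del Dsum dv)
open Pool.Agent.H383.Div (E2 ad ad_zero wd wd_Wt vor)
open Pool.Agent.H452R2.Win (Bdw SandW E2_SandW ad_Bdw2)
open Pool.Agent.R461.GC (divisor_law E2_meas E2_bdd)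
open Pool.Agent.H648_sw (wm wm_int)

theorem ad_off : Off 2 ad := by
  apply TB_div.off (fun m => Nat.cast_nonneg _) one_pos
  intro m hm
  have hm0 : (0 : ℝ) < m := by exact_mod_cast hm
  have hπ := Real.pi_gt_three
  have h2 : 1 ≤ √(2 : ℝ) := Real.one_le_sqrt.2 (by norm_num)
  have h3 : 1 / (Real.pi * √2) ≤ 1 := by
    rw [div_le_one (by positivity)]
    nlinarith
  have h4 : (√(m : ℝ)) ^ (-(3 / 2) : ℝ) = (m : ℝ) ^ (-(3 / 4) : ℝ) := by
    rw [Real.sqrt_eq_rpow, ← Real.rpow_mul hm0.le]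
    norm_num
  rw [h4, one_mul]
  unfold ad dv
  rw [abs_of_nonneg (by positivity)]
  calc (m.divisors.card : ℝ) * (m : ℝ) ^ (-(3 / 4) : ℝ) * (1 / (Real.pi * √2)) ≤
      (m.divisors.card : ℝ) * (m : ℝ) ^ (-(3 / 4) : ℝ) * 1 := mul_le_mul_of_nonneg_left h3 (by positivity)
    _ = _ := mul_one _

/-- **the divisor problem in short windows** -/
theorem div_win : ∃ (ν : ProbabilityMeasure ℝ) (G : ℂ → ℂ),
    Differentiable ℂ G ∧ (∀ x : ℝ, 0 ≤ (G x).re ∧ (G x).im = 0) ∧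
    (ν : Measure ℝ) = volume.withDensity (fun x : ℝ => ENNReal.ofReal (G x).re) ∧
    (∀ u v : ℝ, u < v → 0 < (ν : Measure ℝ) (Set.Ioo u v)) ∧
    Integrable (fun x : ℝ => x ^ 2) (ν : Measure ℝ) ∧
    ∫ x, x ∂(ν : Measure ℝ) = 0 ∧
    HasSum (fun m : ℕ => (m.divisors.card : ℝ) ^ 2 / (4 * Real.pi ^ 2) * (m : ℝ) ^ (-(3 / 2) : ℝ)) (∫ x, x ^ 2 ∂(ν : Measure ℝ)) ∧
    ∀ f : ℝ → ℝ, Continuous f → (∃ C : ℝ, ∀ x, |f x| ≤ C * (1 + x ^ 2)) → ∀ η : ℝ, 0 < η →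
      ∃ L R₀ : ℝ, 0 < L ∧ 4 ≤ R₀ ∧ ∀ R H : ℝ, R₀ ≤ R → L * (Real.log R) ^ 3 ≤ H → H ≤ R →
        |(∫ t in R..(R + H), f (Ed t)) / H - ∫ x, f x ∂(ν : Measure ℝ)| ≤ η := by
  obtain ⟨ν, G, h1, h2, h3, h4, h5, h6, h7, h8⟩ := divisor_law
  refine ⟨ν, G, h1, h2, h3, h4, h5, h6, h7, ?_⟩
  have hE : ∀ x : ℝ, E2 (2 * x) = Ed x := by
    intro x
    unfold E2
    congr 1
    ring
  intro f hf hC η hη
  obtain ⟨L, R₀, hL, hR₀, h9⟩ := law_win ad_Bdw2.Bd ad_zero ad_off wd_Wt (E2_SandW vor) E2_meas E2_bdd (c := 2) two_pos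
    (ν : Measure ℝ) (by
      intro c₁ c₂ K s hc₁ hs f hf hC η hη
      obtain ⟨T₀, hT₀⟩ := h8 c₁ c₂ K s hc₁ hs f hf hC η hη
      refine ⟨T₀, fun T hT μ hμ hsupp hdec => ?_⟩
      simp_rw [hE]
      exact hT₀ T hT μ hμ hsupp hdec) f hf hC η hη
  refine ⟨8 * L, R₀, by positivity, hR₀, fun R H hR hH1 hH2 => ?_⟩
  have hR4 : 4 ≤ R := hR₀.trans hR
  have hR0 : 0 < R := by linarith
  have hlog1 : Real.log 2 ≤ Real.log R := Real.log_le_log (by norm_num) (by linarith)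
  have hlog : 0 < Real.log R := Real.log_pos (by linarith)
  have hH0 : 0 < H := lt_of_lt_of_le (by positivity) hH1
  have g5 : L * (Real.log (2 * R)) ^ (2 + 1) ≤ 2 * H := by
    have e1 : Real.log (2 * R) ≤ 2 * Real.log R := by
      rw [Real.log_mul (by norm_num) hR0.ne']
      linarith
    have e0 : 0 ≤ Real.log (2 * R) := Real.log_nonneg (by linarith)
    have e2 : (Real.log (2 * R)) ^ (2 + 1) ≤ (2 * Real.log R) ^ (2 + 1) := pow_le_pow_left₀ e0 e1 _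
    calc L * (Real.log (2 * R)) ^ (2 + 1) ≤ L * (2 * Real.log R) ^ (2 + 1) := mul_le_mul_of_nonneg_left e2 hL.le
      _ = 8 * L * (Real.log R) ^ 3 := by ring
      _ ≤ H := hH1
      _ ≤ 2 * H := by linarith
  have h10 := h9 (2 * R) (by linarith) (2 * H) g5 (by linarith)
  have h11 : ∫ x, f (E2 x) ∂(wm (2 * R) (2 * H)) = (∫ t in R..(R + H), f (Ed t)) / H := by
    rw [wm_int _ (by linarith : 0 < 2 * H)]
    have e1 : ∫ x in (2 * R)..(2 * R + 2 * H), f (E2 x) = 2 * ∫ t in R..(R + H), f (E2 (2 * t)) := by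
      rw [← mul_add, intervalIntegral.integral_comp_mul_left (fun x => f (E2 x)) (by norm_num : (2 : ℝ) ≠ 0), smul_eq_mul, ← mul_assoc,
        mul_inv_cancel₀ (by norm_num : (2 : ℝ) ≠ 0), one_mul]
    rw [e1]
    simp only [hE]
    rw [smul_eq_mul]
    field_simp
  rw [h11] at h10
  exact h10

end Pool.Agent.H648_nf
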