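import Pool.Agent.H648_nf.Big
import Pool.Agent.H648_nf.DvLaw

set_option autoImplicit false

/-! Large values of the error term of the divisor problem in all windows. -/

namespace Pool.Agent.H648_nf

open MeasureTheory Filter Topology Finset
open Pool.Agent.H387R2.Vor (Ed Del Dsum dv)
open Pool.Agent.H383.Div (E2 ad ad_zero wd wd_Wt vor)
open Pool.Agent.H452R2.Win (Bdw SandW E2_SandW ad_Bdw2)
open Pool.Agent.R461.GC (divisor_law E2_meas E2_bdd)
open Pool.Agent.H648_sw (wm wm_int)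
open Pool.Agent.W24.Both (LBp c1 c1_pos)

/-- the coefficients at products of primes -/
lemma LBp_ad : LBp ad := by
  refine ⟨1 / (Real.pi * √2), by positivity, fun S hS => ?_⟩
  have h1 : (∏ p ∈ S, p).divisors.card = 2 ^ S.card := by
    induction S using Finset.induction_on with
    | empty => simp
    | insert q S hq ih =>
      have hqp := (hS q (mem_insert_self q S)).1
      have hcop : Nat.Coprime q (∏ p ∈ S, p) := by
        apply Nat.Coprime.prod_right
        intro p hp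
        exact (Nat.coprime_primes hqp (hS p (mem_insert_of_mem hp)).1).2 (by
          rintro rfl
          exact hq hp)
      rw [prod_insert hq, hcop.card_divisors_mul, ih (fun p hp => hS p (mem_insert_of_mem hp)), card_insert_of_notMem hq,
        hqp.divisors, card_pair hqp.one_lt.ne, pow_succ]
      ring
  unfold ad dv
  rw [h1]
  have h2 : ((∏ p ∈ S, p : ℕ) : ℝ) ^ (-(3/4):ℝ) = ∏ p ∈ S, (p:ℝ) ^ (-(3/4):ℝ) := by
    rw [Nat.cast_prod, ← Real.finsetProd_rpow _ _ (fun i _ => Nat.cast_nonneg i)]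
  rw [h2, Finset.prod_mul_distrib, Finset.prod_const]
  push_cast
  exact le_of_eq (by ring)

/-- **the measure of the set of large values in every window**, for the divisor problem -/
theorem div_large : ∃ H₀ : ℝ, 4 ≤ H₀ ∧ ∀ R H : ℝ, H₀ ≤ H → H ≤ R → ∀ s : ℝ, (s = 1 ∨ s = -1) →
    H ^ 2 * Real.exp (-√(Real.log H)) / (H + (Real.log R) ^ 3) ≤
      volume.real {t : ℝ | R < t ∧ t ≤ R + H ∧
        Real.exp (c1 * (Real.log (Real.log H)) ^ (1 / 4 : ℝ) * (Real.log (Real.log (Real.log H))) ^ (-(3 / 4) : ℝ)) ≤ s * Ed t} := by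
  have hE : ∀ x : ℝ, E2 (2 * x) = Ed x := by
    intro x
    unfold E2
    congr 1
    ring
  obtain ⟨ν, G, h1, h2, h3, h4, h5, h6, h7, h8⟩ := divisor_law
  obtain ⟨L, R₀, hL, hR₀, h9⟩ := law_win ad_Bdw2.Bd ad_zero ad_off wd_Wt (E2_SandW vor) E2_meas E2_bdd (c := 2) two_pos
    (ν : Measure ℝ) (by
      intro c₁ c₂ K s hc₁ hs f hf hC η hη
      obtain ⟨T₀, hT₀⟩ := h8 c₁ c₂ K s hc₁ hs f hf hC η hη
      refine ⟨T₀, fun T hT μ hμ hsupp hdec => ?_⟩
      simp_rw [hE]
      exact hT₀ T hT μ hμ hsupp hdec) (fun x => x ^ 2) (by fun_prop) ⟨1, fun x => by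
        rw [abs_of_nonneg (sq_nonneg x)]
        linarith⟩ 1 one_pos
  obtain ⟨C, R₁, hC, hR₁, hms⟩ := ms_gen E2_meas E2_bdd (V := ∫ x, x ^ 2 ∂(ν : Measure ℝ)) (integral_nonneg fun x => sq_nonneg x) hL h9
  obtain ⟨C0, hC0, hS'⟩ := (E2_SandW vor).sand
  obtain ⟨H₀, hH₀, hbig⟩ := large_gen ad_Bdw2.Bd ad_zero wd_Wt hC0 hS' LBp_ad E2_meas E2_bdd hC hR₁ hms
  refine ⟨max H₀ (Real.exp 100), hH₀.trans (le_max_left _ _), fun R H hH hHR s hs => ?_⟩
  have hHa : H₀ ≤ H := (le_max_left _ _).trans hH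
  have hHb : Real.exp 100 ≤ H := (le_max_right _ _).trans hH
  have hH4 : 4 ≤ H := hH₀.trans hHa
  have hR4 : 4 ≤ R := by linarith
  have h10 := hbig (2 * R) H hHa (by linarith) s hs
  obtain ⟨V, hV⟩ : ∃ V : ℝ, V = Real.exp (c1 * (Real.log (Real.log H)) ^ (1 / 4 : ℝ) * (Real.log (Real.log (Real.log H))) ^ (-(3 / 4) : ℝ)) := ⟨_, rfl⟩
  rw [← hV] at h10 ⊢
  -- the change of scale
  obtain ⟨A, hA⟩ : ∃ A : Set ℝ, A = {r : ℝ | 2 * R < r ∧ r ≤ 2 * R + H ∧ V ≤ s * E2 r} := ⟨_, rfl⟩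
  obtain ⟨B, hB⟩ : ∃ B : Set ℝ, B = {t : ℝ | R < t ∧ t ≤ R + H ∧ V ≤ s * Ed t} := ⟨_, rfl⟩
  rw [← hA] at h10
  rw [← hB]
  have hBfin : volume B ≠ ⊤ := by
    apply ne_of_lt
    refine lt_of_le_of_lt (measure_mono (t := Set.Ioc R (R + H)) fun r hr => ?_) ?_
    · rw [hB] at hr
      exact ⟨hr.1, hr.2.1⟩
    · rw [Real.volume_Ioc]
      exact ENNReal.ofReal_lt_top
  have hsub : (fun x : ℝ => (2 : ℝ) * x) ⁻¹' A ⊆ B := by
    intro t ht
    rw [Set.mem_preimage, hA] at ht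
    rw [hB]
    obtain ⟨a1, a2, a3⟩ := ht
    rw [hE] at a3
    refine ⟨by linarith, by linarith, a3⟩
  have hvol : volume.real A ≤ 2 * volume.real B := by
    have e1 := Real.volume_preimage_mul_left (show (2 : ℝ) ≠ 0 by norm_num) A
    have e2 : volume.real ((fun x : ℝ => (2 : ℝ) * x) ⁻¹' A) ≤ volume.real B := measureReal_mono hsub hBfin
    unfold Measure.real at e2 ⊢
    rw [e1, ENNReal.toReal_mul, ENNReal.toReal_ofReal (abs_nonneg _), abs_of_pos (by norm_num : (0 : ℝ) < 2⁻¹)] at e2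
    linarith
  have hlog2 : Real.log (2 * R) ≤ 2 * Real.log R := by
    rw [Real.log_mul (by norm_num) (by linarith)]
    have : Real.log 2 ≤ Real.log R := Real.log_le_log (by norm_num) (by linarith)
    linarith
  have hlR : 0 < Real.log R := Real.log_pos (by linarith)
  have hl2R : 0 ≤ Real.log (2 * R) := Real.log_nonneg (by linarith)
  have hden : H + (Real.log (2 * R)) ^ (2 + 1) ≤ 8 * (H + (Real.log R) ^ 3) := by
    have e1 := pow_le_pow_left₀ hl2R hlog2 (2 + 1)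
    have e2 : (2 * Real.log R) ^ (2 + 1) = 8 * (Real.log R) ^ 3 := by ring
    linarith
  obtain ⟨D, hD⟩ : ∃ D : ℝ, D = H + (Real.log R) ^ 3 := ⟨_, rfl⟩
  rw [← hD] at hden ⊢
  have hD0 : 0 < D := by rw [hD]; positivity
  have hsq : 10 ≤ √(Real.log H) := by
    apply Real.le_sqrt_of_sq_le
    have := Real.log_le_log (Real.exp_pos _) hHb
    rw [Real.log_exp] at this
    linarith
  have hexp : 16 * Real.exp (-√(Real.log H)) ≤ Real.exp (-(√(Real.log H) / 2)) := by
    have e1 : Real.exp (-(√(Real.log H) / 2)) = Real.exp (√(Real.log H) / 2) * Real.exp (-√(Real.log H)) := by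
      rw [← Real.exp_add]
      congr 1
      ring
    rw [e1]
    apply mul_le_mul_of_nonneg_right _ (Real.exp_pos _).le
    have e2 : Real.exp 5 ≤ Real.exp (√(Real.log H) / 2) := Real.exp_le_exp.2 (by linarith)
    have e3 : (16 : ℝ) ≤ Real.exp 5 := by
      have e4 : (2 : ℝ) ≤ Real.exp 1 := by linarith [Real.add_one_le_exp (1 : ℝ)]
      have e5 : Real.exp 5 = Real.exp 1 ^ 5 := by
        rw [← Real.exp_nat_mul]
        norm_num
      rw [e5]
      calc (16 : ℝ) ≤ 2 ^ 5 := by norm_num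
        _ ≤ _ := pow_le_pow_left₀ (by norm_num) e4 5
    linarith
  have h12 : 2 * (H ^ 2 * Real.exp (-√(Real.log H)) / D) ≤ H ^ 2 * Real.exp (-(√(Real.log H) / 2)) / (H + (Real.log (2 * R)) ^ (2 + 1)) := by
    have hden0 : 0 < H + (Real.log (2 * R)) ^ (2 + 1) := by positivity
    rw [← mul_div_assoc, div_le_div_iff₀ hD0 hden0]
    have e1 : 0 ≤ H ^ 2 * Real.exp (-√(Real.log H)) := by positivity
    calc 2 * (H ^ 2 * Real.exp (-√(Real.log H))) * (H + (Real.log (2 * R)) ^ (2 + 1))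
        ≤ 2 * (H ^ 2 * Real.exp (-√(Real.log H))) * (8 * D) := mul_le_mul_of_nonneg_left hden (by positivity)
      _ = H ^ 2 * (16 * Real.exp (-√(Real.log H))) * D := by ring
      _ ≤ H ^ 2 * Real.exp (-(√(Real.log H) / 2)) * D := by
          apply mul_le_mul_of_nonneg_right _ hD0.le
          exact mul_le_mul_of_nonneg_left hexp (sq_nonneg H)
  linarith

end Pool.Agent.H648_nf
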