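import Pool.Agent.H648_sw.Blk

set_option autoImplicit false

/-! The off-diagonal part of the mean square of a smoothed series in short windows, from mean squares of the
coefficients. -/

namespace Pool.Agent.H648_nf

open Finset
open Pool.Agent.H648_sw (G G_nonneg G_symm G_near G_far ph ph_nonneg gsum union_le Bj Bj_nonneg rp)

/-- the sum of the kernel -/
lemma ker_sum {H : ℝ} (hH : 1 ≤ H) {m : ℕ} (hm : 1 ≤ m) (S : Finset ℕ) (hS : ∀ j ∈ S, 1 ≤ j) :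
    ∑ j ∈ S.filter (fun j => j ≠ m), G H m j ≤ 8 * √(m : ℝ) / H := by
  have hH0 : 0 < H := by linarith
  have hm1 : (1 : ℝ) ≤ m := by exact_mod_cast hm
  obtain ⟨x, hx⟩ : ∃ x, x = √(m : ℝ) := ⟨_, rfl⟩
  have hx1 : 1 ≤ x := by rw [hx]; exact Real.one_le_sqrt.2 hm1
  have hx0 : 0 < x := by linarith
  rw [← hx]
  have hsub : S.filter (fun j => j ≠ m) ⊆ (Ico 1 (4 * m)).filter (fun j => j ≠ m) ∪ S.filter (fun j => 4 * m ≤ j) := by
    intro j hj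
    rw [mem_filter] at hj
    rw [mem_union, mem_filter, mem_filter, mem_Ico]
    have := hS j hj.1
    by_cases h : j < 4 * m
    · exact Or.inl ⟨⟨this, h⟩, hj.2⟩
    · exact Or.inr ⟨hj.1, by omega⟩
  refine (sum_le_sum_of_subset_of_nonneg hsub fun j _ _ => G_nonneg _ _ _).trans ?_
  refine (union_le _ _ _ fun j => G_nonneg _ _ _).trans ?_
  have h1 : ∑ j ∈ (Ico 1 (4 * m)).filter (fun j => j ≠ m), G H m j ≤ 6 * (x / H) := by
    have e1 : ∑ j ∈ (Ico 1 (4 * m)).filter (fun j => j ≠ m), G H m j ≤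
        ∑ j ∈ (Ico 1 (4 * m)).filter (fun j => j ≠ m), ph (x / H) ((m : ℤ) - j) := by
      refine sum_le_sum fun j hj => ?_
      rw [mem_filter, mem_Ico] at hj
      apply G_near hH hx0 (by rw [hx])
      have h4 : 2 * x = √(4 * (m : ℝ)) := by
        rw [hx, Real.sqrt_mul (by norm_num), show (4 : ℝ) = 2 ^ 2 by norm_num, Real.sqrt_sq (by norm_num)]
      rw [h4]
      apply Real.sqrt_le_sqrt
      exact_mod_cast hj.1.2.le
    refine e1.trans ?_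
    have e2 := gsum (show 0 < x / H by positivity) one_pos (4 * m)
    simp only [Nat.cast_one, one_mul, div_one] at e2
    refine le_trans ?_ e2
    rw [← sum_image (f := fun h : ℤ => ph (x / H) h) (g := fun j : ℕ => (m : ℤ) - j) (by
      intro a _ b _ h
      simp only at h
      omega)]
    apply sum_le_sum_of_subset_of_nonneg _ (fun _ _ _ => ph_nonneg _ _)
    intro h hh
    rw [mem_image] at hh
    obtain ⟨j, hj, rfl⟩ := hh
    rw [mem_filter, mem_Ico] at hj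
    rw [mem_filter, mem_Icc]
    push_cast
    refine ⟨⟨?_, ?_⟩, ?_⟩ <;> omega
  have h2 : ∑ j ∈ S.filter (fun j => 4 * m ≤ j), G H m j ≤ 2 / H := by
    have e1 : ∑ j ∈ S.filter (fun j => 4 * m ≤ j), G H m j ≤ ∑ j ∈ S.filter (fun j => 4 * m ≤ j), 1 / H * (((j : ℝ) ^ 2)⁻¹) := by
      refine sum_le_sum fun j hj => ?_
      rw [mem_filter] at hj
      have := G_far hH (hS j hj.1) hj.2
      rwa [one_div ((j : ℝ) ^ 2)] at this
    refine e1.trans ?_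
    rw [← mul_sum]
    have e2 : ∑ j ∈ S.filter (fun j => 4 * m ≤ j), ((j : ℝ) ^ 2)⁻¹ ≤ ∑ j ∈ Ioo 0 (S.sup id + 1), ((j : ℝ) ^ 2)⁻¹ := by
      apply sum_le_sum_of_subset_of_nonneg _ (fun _ _ _ => by positivity)
      intro j hj
      rw [mem_filter] at hj
      rw [mem_Ioo]
      have e3 : j ≤ S.sup id := le_sup (f := id) hj.1
      have := hS j hj.1
      omega
    have e3 := sum_Ioo_inv_sq_le (α := ℝ) 0 (S.sup id + 1)
    norm_num at e3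
    have e4 : ∑ j ∈ S.filter (fun j => 4 * m ≤ j), ((j : ℝ) ^ 2)⁻¹ ≤ 2 := e2.trans e3
    calc 1 / H * ∑ j ∈ S.filter (fun j => 4 * m ≤ j), ((j : ℝ) ^ 2)⁻¹ ≤ 1 / H * 2 :=
          mul_le_mul_of_nonneg_left e4 (by positivity)
      _ = 2 / H := by ring
  calc _ ≤ 6 * (x / H) + 2 / H := add_le_add h1 h2
    _ = (6 * x + 2) / H := by ring
    _ ≤ 8 * x / H := by
        apply div_le_div_of_nonneg_right _ hH0.le
        linarith

/-- the weights -/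
noncomputable def mb (Cw δ : ℝ) (m : ℕ) : ℝ := min 1 (Cw * (√(m : ℝ) * δ) ^ (-(3 / 2) : ℝ))

lemma mb_nonneg {Cw δ : ℝ} (hCw : 0 ≤ Cw) (hδ : 0 < δ) (m : ℕ) : 0 ≤ mb Cw δ m := by
  unfold mb
  positivity

lemma mb_sq {Cw δ : ℝ} (hCw : 0 ≤ Cw) (hδ : 0 < δ) {m : ℕ} (hm : 1 ≤ m) :
    mb Cw δ m ^ 2 ≤ Bj Cw δ (Nat.log 4 m) := by
  obtain ⟨j, hj⟩ : ∃ j, j = Nat.log 4 m := ⟨_, rfl⟩
  rw [← hj]
  have hm0 : (0 : ℝ) < m := by exact_mod_cast hm
  obtain ⟨y, hy⟩ : ∃ y, y = √(m : ℝ) := ⟨_, rfl⟩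
  have hy0 : 0 < y := by rw [hy]; exact Real.sqrt_pos.2 hm0
  have h1 : (2 : ℝ) ^ j ≤ y := by
    rw [hy]
    apply Real.le_sqrt_of_sq_le
    have : 4 ^ j ≤ m := by rw [hj]; exact Nat.pow_log_le_self 4 (by omega)
    calc ((2 : ℝ) ^ j) ^ 2 = ((4 ^ j : ℕ) : ℝ) := by
          rw [← pow_mul, mul_comm, pow_mul]
          norm_num
      _ ≤ m := by exact_mod_cast this
  have h2 : (0 : ℝ) < 2 ^ j := by positivity
  unfold mb Bj
  rw [← hy]
  apply le_min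
  · have h3 : min 1 (Cw * (y * δ) ^ (-(3 / 2) : ℝ)) ≤ 1 := min_le_left _ _
    have h4 : 0 ≤ min 1 (Cw * (y * δ) ^ (-(3 / 2) : ℝ)) := by positivity
    exact pow_le_one₀ h4 h3
  · have h3 : min 1 (Cw * (y * δ) ^ (-(3 / 2) : ℝ)) ≤ Cw * (y * δ) ^ (-(3 / 2) : ℝ) := min_le_right _ _
    have h4 : 0 ≤ min 1 (Cw * (y * δ) ^ (-(3 / 2) : ℝ)) := by positivity
    refine (pow_le_pow_left₀ h4 h3 2).trans ?_
    rw [mul_pow, rp (by positivity)]
    apply mul_le_mul_of_nonneg_left _ (by positivity)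
    apply inv_anti₀ (by positivity)
    apply pow_le_pow_left₀ (by positivity)
    exact mul_le_mul_of_nonneg_right h1 hδ.le

/-- mean squares of the coefficients -/
def MSq (p : ℕ) (a : ℕ → ℝ) : Prop :=
  ∃ D : ℝ, 0 < D ∧ ∀ j : ℕ, ∑ m ∈ Ico 1 (4 ^ (j + 1)), (a m) ^ 2 * √(m : ℝ) ≤ D * ((j : ℝ) + 1) ^ (p + 1)

/-- the smoothed sum of the squares -/
theorem sq_sum {p : ℕ} {a : ℕ → ℝ} (ha : MSq p a) {Cw : ℝ} (hCw : 0 ≤ Cw) : ∃ C : ℝ, 0 < C ∧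
    ∀ δ : ℝ, 0 < δ → δ ≤ 1 / 2 → ∀ S : Finset ℕ, (∀ m ∈ S, 1 ≤ m) →
    ∑ m ∈ S, (a m) ^ 2 * √(m : ℝ) * mb Cw δ m ^ 2 ≤ C * (Real.log (1 / δ)) ^ (p + 1) := by
  obtain ⟨D, hD, hDa⟩ := ha
  have hsum : Summable (fun i : ℕ => (i : ℝ) ^ (p + 1) * (1 / 2 : ℝ) ^ i) :=
    summable_pow_mul_geometric_of_norm_lt_one (p + 1) (by norm_num)
  have hsum1 : Summable (fun i : ℕ => ((i : ℝ) + 1) ^ (p + 1) * (1 / 2 : ℝ) ^ i) := by
    have h1 := ((summable_nat_add_iff 1).2 hsum).mul_left 2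
    refine h1.congr fun i => ?_
    push_cast
    rw [pow_succ (1 / 2 : ℝ)]
    ring
  obtain ⟨Kp, hKp⟩ : ∃ Kp : ℝ, Kp = ∑' i : ℕ, ((i : ℝ) + 1) ^ (p + 1) * (1 / 2 : ℝ) ^ i := ⟨_, rfl⟩
  have hKp0 : 0 ≤ Kp := by rw [hKp]; exact tsum_nonneg fun i => by positivity
  refine ⟨D * (3 ^ (p + 1) + Cw ^ 2 * 5 ^ (p + 1) * Kp), by positivity, fun δ hδ hδ1 S hS => ?_⟩
  obtain ⟨L, hL⟩ : ∃ L, L = Real.log (1 / δ) := ⟨_, rfl⟩
  have hl2 := Real.log_two_gt_d9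
  have hl2' := Real.log_two_lt_d9
  have hL1 : Real.log 2 ≤ L := by
    rw [hL]
    apply Real.log_le_log (by norm_num)
    rw [le_div_iff₀ hδ]
    linarith
  have hL0 : 0 < L := by linarith
  obtain ⟨J0, hJ0⟩ : ∃ J0, J0 = ⌈L / Real.log 2⌉₊ := ⟨_, rfl⟩
  have h1 : L / Real.log 2 ≤ J0 := by rw [hJ0]; exact Nat.le_ceil _
  have h2 : (J0 : ℝ) < L / Real.log 2 + 1 := by rw [hJ0]; exact Nat.ceil_lt_add_one (by apply div_nonneg <;> linarith)
  have h3 : 1 ≤ 2 ^ J0 * δ := by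
    have e1 : L ≤ J0 * Real.log 2 := by rwa [div_le_iff₀ (by linarith)] at h1
    rw [hL, ← Real.log_pow, Real.log_le_log_iff (by positivity) (by positivity), div_le_iff₀ hδ] at e1
    exact e1
  have hJ01 : 1 ≤ J0 := by
    have e1 : 0 < L / Real.log 2 := by positivity
    have : (0 : ℝ) < J0 := lt_of_lt_of_le e1 h1
    exact_mod_cast this
  have h7 : (J0 : ℝ) ≤ 3 * L := by
    have e1 : L / Real.log 2 ≤ 1.45 * L := by
      rw [div_le_iff₀ (by linarith)]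
      nlinarith
    nlinarith
  obtain ⟨F, hF⟩ : ∃ F : ℕ → ℝ, F = fun m => (a m) ^ 2 * √(m : ℝ) := ⟨_, rfl⟩
  have hF0 : ∀ m, 0 ≤ F m := fun m => by rw [hF]; positivity
  have hmb0 : ∀ m, 0 ≤ F m * mb Cw δ m ^ 2 := fun m => mul_nonneg (hF0 m) (sq_nonneg _)
  have hDF : ∀ j : ℕ, ∑ m ∈ Ico 1 (4 ^ (j + 1)), F m ≤ D * ((j : ℝ) + 1) ^ (p + 1) := by
    rw [hF]
    exact hDa
  have hgoal : ∑ m ∈ S, (a m) ^ 2 * √(m : ℝ) * mb Cw δ m ^ 2 = ∑ m ∈ S, F m * mb Cw δ m ^ 2 := by rw [hF]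
  rw [hgoal]
  obtain ⟨J, hJ⟩ : ∃ J, J = S.sup id + 1 := ⟨_, rfl⟩
  have hJm : ∀ m ∈ S, Nat.log 4 m < J := by
    intro m hm
    have e1 : m ≤ S.sup id := le_sup (f := id) hm
    have e2 : Nat.log 4 m ≤ m := Nat.log_le_self 4 m
    omega
  have hsplit : ∑ m ∈ S, F m * mb Cw δ m ^ 2 ≤ ∑ m ∈ S.filter (fun m => m < 4 ^ J0), F m * mb Cw δ m ^ 2 +
      ∑ i ∈ range J, ∑ m ∈ S.filter (fun m => Nat.log 4 m = J0 + i), F m * mb Cw δ m ^ 2 := by
    rw [← sum_filter_add_sum_filter_not S (fun m => m < 4 ^ J0)]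
    apply add_le_add le_rfl
    rw [← sum_fiberwise_of_maps_to (s := S.filter (fun m => ¬ m < 4 ^ J0)) (t := range J) (g := fun m => Nat.log 4 m - J0) (by
      intro m hm
      rw [mem_filter] at hm
      rw [mem_range]
      have := hJm m hm.1
      omega)]
    refine sum_le_sum fun i _ => ?_
    apply sum_le_sum_of_subset_of_nonneg _ (fun m _ _ => hmb0 m)
    intro m hm
    rw [mem_filter, mem_filter] at hm
    rw [mem_filter]
    refine ⟨hm.1.1, ?_⟩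
    have e1 : J0 ≤ Nat.log 4 m := by
      have := Nat.le_log_of_pow_le (b := 4) (by norm_num) (not_lt.1 hm.1.2)
      exact this
    have := hm.2
    omega
  have hA : ∑ m ∈ S.filter (fun m => m < 4 ^ J0), F m * mb Cw δ m ^ 2 ≤ D * (3 ^ (p + 1) * L ^ (p + 1)) := by
    calc ∑ m ∈ S.filter (fun m => m < 4 ^ J0), F m * mb Cw δ m ^ 2 ≤ ∑ m ∈ S.filter (fun m => m < 4 ^ J0), F m := by
          refine sum_le_sum fun m _ => ?_
          have e1 : mb Cw δ m ^ 2 ≤ 1 := pow_le_one₀ (mb_nonneg hCw hδ m) (min_le_left _ _)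
          calc F m * mb Cw δ m ^ 2 ≤ F m * 1 := mul_le_mul_of_nonneg_left e1 (hF0 m)
            _ = F m := mul_one _
      _ ≤ ∑ m ∈ Ico 1 (4 ^ ((J0 - 1) + 1)), F m := by
          apply sum_le_sum_of_subset_of_nonneg _ (fun m _ _ => hF0 m)
          intro m hm
          rw [mem_filter] at hm
          rw [mem_Ico, Nat.sub_add_cancel hJ01]
          exact ⟨hS m hm.1, hm.2⟩
      _ ≤ D * (((J0 - 1 : ℕ) : ℝ) + 1) ^ (p + 1) := hDF _
      _ ≤ D * (3 ^ (p + 1) * L ^ (p + 1)) := by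
          apply mul_le_mul_of_nonneg_left _ hD.le
          rw [← mul_pow]
          apply pow_le_pow_left₀ (by positivity)
          rw [Nat.cast_sub hJ01]
          push_cast
          linarith
  have hB : ∀ i ∈ range J, ∑ m ∈ S.filter (fun m => Nat.log 4 m = J0 + i), F m * mb Cw δ m ^ 2 ≤
      D * (Cw ^ 2 * (5 ^ (p + 1) * L ^ (p + 1))) * (((i : ℝ) + 1) ^ (p + 1) * (1 / 2) ^ i) := by
    intro i _
    have f5 : Bj Cw δ (J0 + i) ≤ Cw ^ 2 * (1 / 2) ^ i := by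
      refine (min_le_right _ _).trans ?_
      apply mul_le_mul_of_nonneg_left _ (sq_nonneg _)
      have e2 : (2 : ℝ) ^ i ≤ (2 ^ (J0 + i) * δ) ^ 3 := by
        have e3 : (2 : ℝ) ^ i ≤ 2 ^ (J0 + i) * δ := by
          rw [pow_add]
          have : (0 : ℝ) < 2 ^ i := by positivity
          nlinarith
        have e4 : (1 : ℝ) ≤ 2 ^ i := one_le_pow₀ (by norm_num)
        have e5 : 1 ≤ 2 ^ (J0 + i) * δ := e4.trans e3
        calc (2 : ℝ) ^ i ≤ 2 ^ (J0 + i) * δ := e3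
          _ ≤ (2 ^ (J0 + i) * δ) ^ 3 := le_self_pow₀ e5 (by norm_num)
      calc ((2 ^ (J0 + i) * δ) ^ 3)⁻¹ ≤ ((2 : ℝ) ^ i)⁻¹ := inv_anti₀ (by positivity) e2
        _ = (1 / 2) ^ i := by rw [one_div, inv_pow]
    have f0 : 0 ≤ Cw ^ 2 * (1 / 2 : ℝ) ^ i := by positivity
    calc ∑ m ∈ S.filter (fun m => Nat.log 4 m = J0 + i), F m * mb Cw δ m ^ 2
        ≤ ∑ m ∈ S.filter (fun m => Nat.log 4 m = J0 + i), F m * (Cw ^ 2 * (1 / 2) ^ i) := by
          refine sum_le_sum fun m hm => ?_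
          rw [mem_filter] at hm
          apply mul_le_mul_of_nonneg_left _ (hF0 m)
          have := mb_sq hCw hδ (hS m hm.1)
          rw [hm.2] at this
          exact this.trans f5
      _ = (Cw ^ 2 * (1 / 2) ^ i) * ∑ m ∈ S.filter (fun m => Nat.log 4 m = J0 + i), F m := by
          rw [← sum_mul, mul_comm]
      _ ≤ (Cw ^ 2 * (1 / 2) ^ i) * (D * (((J0 + i : ℕ) : ℝ) + 1) ^ (p + 1)) := by
          apply mul_le_mul_of_nonneg_left _ f0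
          refine le_trans ?_ (hDF (J0 + i))
          apply sum_le_sum_of_subset_of_nonneg _ (fun m _ _ => hF0 m)
          intro m hm
          rw [mem_filter] at hm
          rw [mem_Ico]
          refine ⟨hS m hm.1, ?_⟩
          rw [← hm.2]
          exact Nat.lt_pow_succ_log_self (by norm_num) m
      _ ≤ (Cw ^ 2 * (1 / 2) ^ i) * (D * ((5 ^ (p + 1) * L ^ (p + 1)) * ((i : ℝ) + 1) ^ (p + 1))) := by
          apply mul_le_mul_of_nonneg_left _ f0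
          apply mul_le_mul_of_nonneg_left _ hD.le
          rw [← mul_pow, ← mul_pow]
          apply pow_le_pow_left₀ (by positivity)
          push_cast
          have f2 : (J0 : ℝ) + 1 ≤ 5 * L := by linarith
          have f3 : (0 : ℝ) ≤ i := Nat.cast_nonneg i
          have f4 : 1 ≤ 5 * L := by linarith
          nlinarith
      _ = _ := by ring
  refine hsplit.trans ((add_le_add hA (sum_le_sum hB)).trans ?_)
  rw [← mul_sum, ← hL]
  have hC : ∑ i ∈ range J, ((i : ℝ) + 1) ^ (p + 1) * (1 / 2 : ℝ) ^ i ≤ Kp := by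
    rw [hKp]
    exact hsum1.sum_le_tsum (range J) (fun i _ => by positivity)
  calc D * (3 ^ (p + 1) * L ^ (p + 1)) + D * (Cw ^ 2 * (5 ^ (p + 1) * L ^ (p + 1))) * ∑ i ∈ range J, ((i : ℝ) + 1) ^ (p + 1) * (1 / 2 : ℝ) ^ i
      ≤ D * (3 ^ (p + 1) * L ^ (p + 1)) + D * (Cw ^ 2 * (5 ^ (p + 1) * L ^ (p + 1))) * Kp :=
        add_le_add le_rfl (mul_le_mul_of_nonneg_left hC (by positivity))
    _ = _ := by ring

/-- the off-diagonal sum -/
theorem off_gen {p : ℕ} {a : ℕ → ℝ} (ha : MSq p a) {Cw : ℝ} (hCw : 0 ≤ Cw) : ∃ C : ℝ, 0 < C ∧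
    ∀ δ H : ℝ, 0 < δ → δ ≤ 1 / 2 → 1 ≤ H → ∀ c : ℕ → ℝ, (∀ m, 0 ≤ c m) → (∀ m, 1 ≤ m → c m ≤ |a m| * mb Cw δ m) →
    ∀ S : Finset ℕ, (∀ m ∈ S, 1 ≤ m) →
    ∑ m ∈ S, ∑ j ∈ S.filter (fun j => j ≠ m), c m * c j * G H m j ≤ C * ((Real.log (1 / δ)) ^ (p + 1) / H) := by
  obtain ⟨K, hK, hKs⟩ := sq_sum ha hCw
  refine ⟨8 * K, by positivity, fun δ H hδ hδ1 hH c hc0 hc S hS => ?_⟩
  have hH0 : 0 < H := by linarith
  -- symmetrisation
  have h1 : ∑ m ∈ S, ∑ j ∈ S.filter (fun j => j ≠ m), c m * c j * G H m j ≤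
      ∑ m ∈ S, ∑ j ∈ S.filter (fun j => j ≠ m), ((c m ^ 2 / 2) * G H m j + (c j ^ 2 / 2) * G H m j) := by
    refine sum_le_sum fun m _ => sum_le_sum fun j _ => ?_
    rw [← add_mul]
    apply mul_le_mul_of_nonneg_right _ (G_nonneg _ _ _)
    nlinarith [sq_nonneg (c m - c j)]
  have h2 : ∑ m ∈ S, ∑ j ∈ S.filter (fun j => j ≠ m), (c j ^ 2 / 2) * G H m j =
      ∑ m ∈ S, ∑ j ∈ S.filter (fun j => j ≠ m), (c m ^ 2 / 2) * G H m j := by
    simp only [sum_filter]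
    rw [sum_comm]
    refine sum_congr rfl fun m _ => sum_congr rfl fun j _ => ?_
    by_cases h : m = j
    · rw [if_neg (by simp [h]), if_neg (by simp [h])]
    · rw [if_pos h, if_pos (fun h' => h h'.symm), G_symm]
  have h3 : ∑ m ∈ S, ∑ j ∈ S.filter (fun j => j ≠ m), c m * c j * G H m j ≤ ∑ m ∈ S, c m ^ 2 * (8 * √(m : ℝ) / H) := by
    refine h1.trans ?_
    simp only [sum_add_distrib]
    rw [h2, ← sum_add_distrib]
    refine sum_le_sum fun m hm => ?_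
    rw [← mul_sum, ← add_mul, add_halves]
    exact mul_le_mul_of_nonneg_left (ker_sum hH (hS m hm) S hS) (sq_nonneg _)
  refine h3.trans ?_
  have h4 : ∑ m ∈ S, c m ^ 2 * (8 * √(m : ℝ) / H) ≤ 8 / H * ∑ m ∈ S, (a m) ^ 2 * √(m : ℝ) * mb Cw δ m ^ 2 := by
    rw [mul_sum]
    refine sum_le_sum fun m hm => ?_
    have f2 := pow_le_pow_left₀ (hc0 m) (hc m (hS m hm)) 2
    rw [mul_pow, sq_abs] at f2
    calc c m ^ 2 * (8 * √(m : ℝ) / H) ≤ ((a m) ^ 2 * mb Cw δ m ^ 2) * (8 * √(m : ℝ) / H) :=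
          mul_le_mul_of_nonneg_right f2 (by positivity)
      _ = _ := by ring
  refine h4.trans ?_
  calc 8 / H * ∑ m ∈ S, (a m) ^ 2 * √(m : ℝ) * mb Cw δ m ^ 2 ≤ 8 / H * (K * (Real.log (1 / δ)) ^ (p + 1)) :=
        mul_le_mul_of_nonneg_left (hKs δ hδ hδ1 S hS) (by positivity)
    _ = _ := by ring

/-- a bound for the off-diagonal sums -/
def Off (p : ℕ) (a : ℕ → ℝ) : Prop := ∀ Cw : ℝ, 0 ≤ Cw → ∃ C : ℝ, 0 < C ∧
    ∀ δ H : ℝ, 0 < δ → δ ≤ 1 / 2 → 1 ≤ H → ∀ c : ℕ → ℝ, (∀ m, 0 ≤ c m) → (∀ m, 1 ≤ m → c m ≤ |a m| * mb Cw δ m) →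
    ∀ S : Finset ℕ, (∀ m ∈ S, 1 ≤ m) →
    ∑ m ∈ S, ∑ j ∈ S.filter (fun j => j ≠ m), c m * c j * G H m j ≤ C * ((Real.log (1 / δ)) ^ (p + 1) / H)

lemma MSq.off {p : ℕ} {a : ℕ → ℝ} (ha : MSq p a) : Off p a := fun _ hCw => off_gen ha hCw

end Pool.Agent.H648_nf
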