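import Pool.Agent.H648_nf.Dv

set_option autoImplicit false

/-! Off-diagonal sums from near diagonal sums. -/

namespace Pool.Agent.H648_nf

open Finset
open Pool.Agent.H648_sw (G G_nonneg G_symm union_le Bj Bj_nonneg bw bw_nonneg bw_sq)

/-- the number of blocks, with weights -/
lemma log_sum_p (p : ℕ) (Cw : ℝ) : ∃ K : ℝ, 0 < K ∧ ∀ δ : ℝ, 0 < δ → δ ≤ 1 / 2 → ∀ J : ℕ,
    ∑ j ∈ range J, ((j : ℝ) + 1) ^ p * Bj Cw δ j ≤ K * (Real.log (1 / δ)) ^ (p + 1) := by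
  have hsum : Summable (fun i : ℕ => (i : ℝ) ^ p * (1 / 2 : ℝ) ^ i) :=
    summable_pow_mul_geometric_of_norm_lt_one p (by norm_num)
  have hsum1 : Summable (fun i : ℕ => ((i : ℝ) + 1) ^ p * (1 / 2 : ℝ) ^ i) := by
    have h1 := ((summable_nat_add_iff 1).2 hsum).mul_left 2
    refine h1.congr fun i => ?_
    push_cast
    rw [pow_succ]
    ring
  obtain ⟨Kp, hKp⟩ : ∃ Kp : ℝ, Kp = ∑' i : ℕ, ((i : ℝ) + 1) ^ p * (1 / 2 : ℝ) ^ i := ⟨_, rfl⟩
  have hKp0 : 0 ≤ Kp := by rw [hKp]; exact tsum_nonneg fun i => by positivity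
  refine ⟨3 ^ (p + 1) + 2 * Cw ^ 2 * Kp * 5 ^ p, by positivity, fun δ hδ hδ1 J => ?_⟩
  obtain ⟨L, hL⟩ : ∃ L, L = Real.log (1 / δ) := ⟨_, rfl⟩
  have hl2 := Real.log_two_gt_d9
  have hl2' := Real.log_two_lt_d9
  have hL1 : Real.log 2 ≤ L := by
    rw [hL]
    apply Real.log_le_log (by norm_num)
    rw [le_div_iff₀ hδ]
    linarith
  have hL0 : 0 < L := by linarith
  obtain ⟨J0, hJ0⟩ : ∃ J0, J0 = ⌈L / Real.log 2⌉₊ := ⟨_, rfl⟩
  have h1 : L / Real.log 2 ≤ J0 := by rw [hJ0]; exact Nat.le_ceil _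
  have h2 : (J0 : ℝ) < L / Real.log 2 + 1 := by rw [hJ0]; exact Nat.ceil_lt_add_one (by apply div_nonneg <;> linarith)
  have h3 : 1 ≤ 2 ^ J0 * δ := by
    have e1 : L ≤ J0 * Real.log 2 := by rwa [div_le_iff₀ (by linarith)] at h1
    rw [hL, ← Real.log_pow, Real.log_le_log_iff (by positivity) (by positivity), div_le_iff₀ hδ] at e1
    exact e1
  have h7 : (J0 : ℝ) ≤ 3 * L := by
    have e1 : L / Real.log 2 ≤ 1.45 * L := by
      rw [div_le_iff₀ (by linarith)]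
      nlinarith
    nlinarith
  have hsplit : range J ⊆ range J0 ∪ Ico J0 (J0 + J) := by
    intro j hj
    rw [mem_range] at hj
    rw [mem_union, mem_range, mem_Ico]
    omega
  have hnn : ∀ j : ℕ, 0 ≤ ((j : ℝ) + 1) ^ p * Bj Cw δ j := fun j => mul_nonneg (by positivity) (Bj_nonneg Cw hδ j)
  have h4 : ∑ j ∈ range J, ((j : ℝ) + 1) ^ p * Bj Cw δ j ≤
      ∑ j ∈ range J0, ((j : ℝ) + 1) ^ p * Bj Cw δ j + ∑ j ∈ Ico J0 (J0 + J), ((j : ℝ) + 1) ^ p * Bj Cw δ j :=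
    (sum_le_sum_of_subset_of_nonneg hsplit fun j _ _ => hnn j).trans (union_le _ _ _ hnn)
  have h5 : ∑ j ∈ range J0, ((j : ℝ) + 1) ^ p * Bj Cw δ j ≤ (3 * L) ^ (p + 1) := by
    calc ∑ j ∈ range J0, ((j : ℝ) + 1) ^ p * Bj Cw δ j ≤ ∑ j ∈ range J0, (3 * L) ^ p * 1 := by
          refine sum_le_sum fun j hj => ?_
          rw [mem_range] at hj
          apply mul_le_mul _ (min_le_left _ _) (Bj_nonneg Cw hδ j) (by positivity)
          apply pow_le_pow_left₀ (by positivity)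
          have : (j : ℝ) + 1 ≤ J0 := by exact_mod_cast hj
          linarith
      _ = J0 * (3 * L) ^ p := by simp
      _ ≤ (3 * L) * (3 * L) ^ p := mul_le_mul_of_nonneg_right h7 (by positivity)
      _ = _ := by rw [pow_succ]; ring
  have h6 : ∑ j ∈ Ico J0 (J0 + J), ((j : ℝ) + 1) ^ p * Bj Cw δ j ≤ Cw ^ 2 * (5 * L) ^ p * Kp := by
    rw [sum_Ico_eq_sum_range, Nat.add_sub_cancel_left]
    have e1 : ∀ i ∈ range J, (((J0 + i : ℕ) : ℝ) + 1) ^ p * Bj Cw δ (J0 + i) ≤ Cw ^ 2 * (5 * L) ^ p * (((i : ℝ) + 1) ^ p * (1 / 2) ^ i) := by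
      intro i _
      have f1 : (((J0 + i : ℕ) : ℝ) + 1) ^ p ≤ (5 * L) ^ p * ((i : ℝ) + 1) ^ p := by
        rw [← mul_pow]
        apply pow_le_pow_left₀ (by positivity)
        push_cast
        have f2 : (J0 : ℝ) + 1 ≤ 5 * L := by linarith
        have f3 : (0 : ℝ) ≤ i := Nat.cast_nonneg i
        have f4 : 1 ≤ 5 * L := by linarith
        nlinarith
      have f5 : Bj Cw δ (J0 + i) ≤ Cw ^ 2 * (1 / 2) ^ i := by
        refine (min_le_right _ _).trans ?_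
        apply mul_le_mul_of_nonneg_left _ (sq_nonneg _)
        have e2 : (2 : ℝ) ^ i ≤ (2 ^ (J0 + i) * δ) ^ 3 := by
          have e3 : (2 : ℝ) ^ i ≤ 2 ^ (J0 + i) * δ := by
            rw [pow_add]
            have : (0 : ℝ) < 2 ^ i := by positivity
            nlinarith
          have e4 : (1 : ℝ) ≤ 2 ^ i := one_le_pow₀ (by norm_num)
          have e5 : 1 ≤ 2 ^ (J0 + i) * δ := e4.trans e3
          calc (2 : ℝ) ^ i ≤ 2 ^ (J0 + i) * δ := e3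
            _ ≤ (2 ^ (J0 + i) * δ) ^ 3 := le_self_pow₀ e5 (by norm_num)
        calc ((2 ^ (J0 + i) * δ) ^ 3)⁻¹ ≤ ((2 : ℝ) ^ i)⁻¹ := inv_anti₀ (by positivity) e2
          _ = (1 / 2) ^ i := by rw [one_div, inv_pow]
      calc (((J0 + i : ℕ) : ℝ) + 1) ^ p * Bj Cw δ (J0 + i) ≤ ((5 * L) ^ p * ((i : ℝ) + 1) ^ p) * (Cw ^ 2 * (1 / 2) ^ i) :=
            mul_le_mul f1 f5 (Bj_nonneg Cw hδ _) (by positivity)
        _ = _ := by ring
    refine (sum_le_sum e1).trans ?_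
    rw [← mul_sum]
    apply mul_le_mul_of_nonneg_left _ (by positivity)
    rw [hKp]
    exact hsum1.sum_le_tsum (range J) (fun i _ => by positivity)
  rw [← hL]
  have h8 : Cw ^ 2 * (5 * L) ^ p * Kp ≤ 2 * Cw ^ 2 * Kp * 5 ^ p * L ^ (p + 1) := by
    have e0 : L ^ (p + 1) = L ^ p * L := pow_succ _ _
    rw [mul_pow, e0]
    have h11 : 0 ≤ Cw ^ 2 * Kp * 5 ^ p * L ^ p := by positivity
    have h9 : 1 ≤ 2 * L := by linarith
    calc Cw ^ 2 * (5 ^ p * L ^ p) * Kp = (Cw ^ 2 * Kp * 5 ^ p * L ^ p) * 1 := by ring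
      _ ≤ (Cw ^ 2 * Kp * 5 ^ p * L ^ p) * (2 * L) := mul_le_mul_of_nonneg_left h9 h11
      _ = _ := by ring
  have h10 : (3 * L) ^ (p + 1) = 3 ^ (p + 1) * L ^ (p + 1) := mul_pow _ _ _
  rw [h10] at h5
  calc _ ≤ _ := h4
    _ ≤ 3 ^ (p + 1) * L ^ (p + 1) + 2 * Cw ^ 2 * Kp * 5 ^ p * L ^ (p + 1) := add_le_add h5 (h6.trans h8)
    _ = _ := by ring

/-- **off-diagonal sums from near diagonal sums** -/
theorem TB.off {p : ℕ} {r a : ℕ → ℝ} (hr : TB p r) (hr0 : ∀ m, 0 ≤ r m) {K : ℝ} (hK : 0 < K)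
    (ha : ∀ m : ℕ, 1 ≤ m → |a m| ≤ K * (r m * (√(m : ℝ)) ^ (-(3 / 2) : ℝ))) : Off p a := by
  obtain ⟨D, hD, hT⟩ := hr
  intro Cw hCw
  obtain ⟨K', hK', hlog⟩ := log_sum_p p Cw
  refine ⟨K ^ 2 * (8 * D * 3 ^ p * K'), by positivity, fun δ H hδ hδ1 hH c hc0 hc S hS => ?_⟩
  have hH0 : 0 < H := by linarith
  obtain ⟨b, hb⟩ : ∃ b, b = bw Cw δ := ⟨_, rfl⟩
  have hb0 : ∀ m, 0 ≤ b m := fun m => by rw [hb]; exact bw_nonneg hCw hδ m
  have hcb : ∀ m, 1 ≤ m → c m ≤ K * (r m * b m) := by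
    intro m hm
    refine (hc m hm).trans ?_
    have e1 := mul_le_mul_of_nonneg_right (ha m hm) (mb_nonneg hCw hδ m)
    refine e1.trans (le_of_eq ?_)
    rw [hb]
    unfold bw mb
    ring
  obtain ⟨Q, hQ⟩ : ∃ Q : ℕ → ℝ, Q = fun m => ∑ j ∈ S.filter (fun j => j ≠ m), r j * G H m j := ⟨_, rfl⟩
  have hQ0 : ∀ m, 0 ≤ Q m := fun m => by rw [hQ]; exact sum_nonneg fun j _ => mul_nonneg (hr0 _) (G_nonneg _ _ _)
  -- symmetrisation
  have h1 : ∑ m ∈ S, ∑ j ∈ S.filter (fun j => j ≠ m), c m * c j * G H m j ≤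
      ∑ m ∈ S, ∑ j ∈ S.filter (fun j => j ≠ m), (K ^ 2 * (r m * r j * G H m j * (b m ^ 2 / 2)) + K ^ 2 * (r m * r j * G H m j * (b j ^ 2 / 2))) := by
    refine sum_le_sum fun m hm => sum_le_sum fun j hj => ?_
    have hm1 := hS m hm
    have hj1 := hS j (mem_filter.1 hj).1
    have e1 : c m * c j ≤ (K * (r m * b m)) * (K * (r j * b j)) :=
      mul_le_mul (hcb m hm1) (hcb j hj1) (hc0 _) (mul_nonneg hK.le (mul_nonneg (hr0 _) (hb0 _)))
    have e2 : b m * b j ≤ b m ^ 2 / 2 + b j ^ 2 / 2 := by nlinarith [sq_nonneg (b m - b j)]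
    calc c m * c j * G H m j ≤ (K * (r m * b m)) * (K * (r j * b j)) * G H m j := mul_le_mul_of_nonneg_right e1 (G_nonneg _ _ _)
      _ = K ^ 2 * (r m * r j * G H m j) * (b m * b j) := by ring
      _ ≤ K ^ 2 * (r m * r j * G H m j) * (b m ^ 2 / 2 + b j ^ 2 / 2) :=
          mul_le_mul_of_nonneg_left e2 (mul_nonneg (sq_nonneg K) (mul_nonneg (mul_nonneg (hr0 _) (hr0 _)) (G_nonneg _ _ _)))
      _ = _ := by ring
  have h2 : ∑ m ∈ S, ∑ j ∈ S.filter (fun j => j ≠ m), K ^ 2 * (r m * r j * G H m j * (b j ^ 2 / 2)) =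
      ∑ m ∈ S, ∑ j ∈ S.filter (fun j => j ≠ m), K ^ 2 * (r m * r j * G H m j * (b m ^ 2 / 2)) := by
    simp only [sum_filter]
    rw [sum_comm]
    refine sum_congr rfl fun m _ => sum_congr rfl fun j _ => ?_
    by_cases h : m = j
    · rw [if_neg (by simp [h]), if_neg (by simp [h])]
    · rw [if_pos h, if_pos (fun h' => h h'.symm), G_symm]
      ring
  have h3 : ∑ m ∈ S, ∑ j ∈ S.filter (fun j => j ≠ m), c m * c j * G H m j ≤ K ^ 2 * ∑ m ∈ S, b m ^ 2 * (r m * Q m) := by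
    refine h1.trans ?_
    simp only [sum_add_distrib]
    rw [h2, ← sum_add_distrib, mul_sum]
    refine sum_le_sum fun m _ => ?_
    rw [hQ]
    simp only [mul_sum]
    rw [← sum_add_distrib]
    refine sum_le_sum fun j _ => le_of_eq ?_
    ring
  refine h3.trans ?_
  -- the blocks
  obtain ⟨J, hJ⟩ : ∃ J, J = S.sup id + 1 := ⟨_, rfl⟩
  have hJm : ∀ m ∈ S, Nat.log 4 m < J := by
    intro m hm
    have e1 : m ≤ S.sup id := le_sup (f := id) hm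
    have e2 : Nat.log 4 m ≤ m := Nat.log_le_self 4 m
    omega
  have h4 : ∀ m ∈ S, b m ^ 2 * (r m * Q m) ≤
      ∑ j ∈ range J, if m < 4 ^ (j + 1) then ((2 ^ j) ^ 3)⁻¹ * Bj Cw δ j * (r m * Q m) else 0 := by
    intro m hm
    have hrQ : 0 ≤ r m * Q m := mul_nonneg (hr0 _) (hQ0 _)
    have e1 := bw_sq hCw hδ (hS m hm)
    rw [← hb] at e1
    have e2 := mul_le_mul_of_nonneg_right e1 hrQ
    refine e2.trans ?_
    have e3 : m < 4 ^ (Nat.log 4 m + 1) := Nat.lt_pow_succ_log_self (by norm_num) m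
    have e4 := single_le_sum (f := fun j => if m < 4 ^ (j + 1) then ((2 ^ j) ^ 3)⁻¹ * Bj Cw δ j * (r m * Q m) else 0)
      (s := range J) (fun j _ => by
        split_ifs
        · exact mul_nonneg (mul_nonneg (by positivity) (Bj_nonneg Cw hδ j)) hrQ
        · exact le_rfl) (mem_range.2 (hJm m hm))
    simp only [if_pos e3] at e4
    exact e4
  have h5 : ∀ j ∈ range J, ∑ m ∈ S, (if m < 4 ^ (j + 1) then ((2 ^ j) ^ 3)⁻¹ * Bj Cw δ j * (r m * Q m) else 0) ≤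
      8 * D * 3 ^ p / H * (((j : ℝ) + 1) ^ p * Bj Cw δ j) := by
    intro j _
    rw [← sum_filter, ← mul_sum]
    have e1 : ∑ m ∈ S.filter (fun m => m < 4 ^ (j + 1)), r m * Q m ≤ ∑ m ∈ Ico 1 (4 ^ (j + 1)), r m * Q m := by
      apply sum_le_sum_of_subset_of_nonneg _ (fun m _ _ => mul_nonneg (hr0 _) (hQ0 _))
      intro m hm
      rw [mem_filter] at hm
      rw [mem_Ico]
      exact ⟨hS m hm.1, hm.2⟩
    have e2 := hT H hH (4 ^ (j + 1)) (Nat.one_le_pow _ _ (by norm_num)) S hS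
    have e3 : √(((4 ^ (j + 1) : ℕ) : ℝ)) = 2 ^ (j + 1) := by
      rw [show (((4 ^ (j + 1) : ℕ) : ℝ)) = (2 ^ (j + 1)) ^ 2 by
        push_cast
        rw [← pow_mul, mul_comm, pow_mul]
        norm_num]
      exact Real.sqrt_sq (by positivity)
    rw [e3] at e2
    have e5 : (1 + Real.log ((4 ^ (j + 1) : ℕ) : ℝ)) ^ p ≤ 3 ^ p * ((j : ℝ) + 1) ^ p := by
      rw [← mul_pow]
      have f1 : Real.log ((4 ^ (j + 1) : ℕ) : ℝ) = ((j : ℝ) + 1) * Real.log 4 := by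
        push_cast
        rw [Real.log_pow]
        push_cast
        ring
      have f2 : Real.log 4 = 2 * Real.log 2 := by
        rw [show (4 : ℝ) = 2 ^ 2 by norm_num, Real.log_pow]
        norm_num
      have f3 := Real.log_two_lt_d9
      have f4 := Real.log_two_gt_d9
      have f5 : (0 : ℝ) ≤ j := Nat.cast_nonneg j
      rw [f1, f2]
      apply pow_le_pow_left₀ (by positivity)
      nlinarith
    have e4 : ∑ m ∈ Ico 1 (4 ^ (j + 1)), r m * Q m ≤ D * (2 ^ (j + 1)) ^ 3 * (3 ^ p * ((j : ℝ) + 1) ^ p) / H := by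
      rw [hQ]
      refine e2.trans ?_
      apply div_le_div_of_nonneg_right _ hH0.le
      exact mul_le_mul_of_nonneg_left e5 (by positivity)
    calc ((2 ^ j) ^ 3)⁻¹ * Bj Cw δ j * ∑ m ∈ S.filter (fun m => m < 4 ^ (j + 1)), r m * Q m
        ≤ ((2 ^ j) ^ 3)⁻¹ * Bj Cw δ j * (D * (2 ^ (j + 1)) ^ 3 * (3 ^ p * ((j : ℝ) + 1) ^ p) / H) :=
          mul_le_mul_of_nonneg_left (e1.trans e4) (mul_nonneg (by positivity) (Bj_nonneg Cw hδ j))
      _ = 8 * D * 3 ^ p / H * (((j : ℝ) + 1) ^ p * Bj Cw δ j) := by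
          rw [pow_succ (2 : ℝ) j]
          field_simp
          ring
  have h6 : ∑ m ∈ S, b m ^ 2 * (r m * Q m) ≤ 8 * D * 3 ^ p / H * (K' * (Real.log (1 / δ)) ^ (p + 1)) := by
    refine (sum_le_sum h4).trans ?_
    rw [sum_comm]
    refine (sum_le_sum h5).trans ?_
    rw [← mul_sum]
    exact mul_le_mul_of_nonneg_left (hlog δ hδ hδ1 J) (by positivity)
  calc K ^ 2 * ∑ m ∈ S, b m ^ 2 * (r m * Q m) ≤ K ^ 2 * (8 * D * 3 ^ p / H * (K' * (Real.log (1 / δ)) ^ (p + 1))) :=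
        mul_le_mul_of_nonneg_left h6 (sq_nonneg K)
    _ = _ := by ring

end Pool.Agent.H648_nf
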