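import Pool.Agent.H648_sw.Gau
import Pool.Agent.H648_nf.Ker
import Pool.Agent.R461.GC.G7

set_option autoImplicit false

/-! The mean square of the tail of a smoothed series with respect to Gaussian measures, and the approximation of
the error term in short windows. -/

namespace Pool.Agent.H648_nf

open MeasureTheory Filter Topology Finset ProbabilityTheory
open Pool.Agent.R461.GC (ch norm_ch ch_cont ch_zero wt_cont pow_small sq_three)
open Pool.Agent.H383.Gauss (Tl Tl_nonneg Tl_tendsto)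
open Pool.Agent.H383.Gen (U Bd)
open Pool.Agent.H383.GW (Wt wt WS WS_tail WS_low abs_wt_le)
open Pool.Agent.H452R2.Win (SandW Bdw erw)
open Pool.Agent.H648_sw (G quad_form ga ga_ch wm wm_prob wm_supp wm_le_ga)

/-- **the mean square of the tail** -/
theorem tail_gen {a : ℕ → ℝ} (ha : Bd a) {p : ℕ} (hp : Off p a) {w : ℝ → ℂ} (hw : Wt w) (φ κ : ℝ) : ∃ C : ℝ, 0 < C ∧
    ∀ x₀ H δ : ℝ, 1 ≤ H → 0 < δ → δ ≤ 1 / 2 → ∀ M Y : ℕ, 1 ≤ M →
    ∫ x, (∑ m ∈ Ioc (M ^ 2) (Y ^ 2), wt a φ w (x + κ * δ) δ m) ^ 2 ∂(ga x₀ H) ≤ C * (Tl M + (Real.log (1 / δ)) ^ (p + 1) / H) := by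
  classical
  obtain ⟨A, hA, hAa⟩ := ha
  obtain ⟨Cw, hCw, hwd⟩ := hw.dec
  obtain ⟨Co, hCo, hoff⟩ := hp Cw hCw.le
  refine ⟨A ^ 2 + Co, by positivity, fun x₀ H δ hH hδ hδ1 M Y hM => ?_⟩
  have hH0 : 0 < H := by linarith
  obtain ⟨S, hS⟩ : ∃ S, S = Ioc (M ^ 2) (Y ^ 2) := ⟨_, rfl⟩
  rw [← hS]
  obtain ⟨c, hc⟩ : ∃ c : ℕ → ℂ, c = fun m : ℕ => ((a m : ℝ) : ℂ) * (Complex.exp (((2 * Real.pi * (κ * δ * √(m : ℝ)) - φ : ℝ) : ℂ) * Complex.I) * w (√(m : ℝ) * δ)) := ⟨_, rfl⟩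
  obtain ⟨l, hl⟩ : ∃ l : ℕ → ℝ, l = fun m : ℕ => 2 * Real.pi * √(m : ℝ) := ⟨_, rfl⟩
  have hSm : ∀ m ∈ S, 1 ≤ m ∧ M ^ 2 < m := by
    intro m hm
    rw [hS, mem_Ioc] at hm
    exact ⟨by omega, hm.1⟩
  -- the sum is a real part
  have hre : ∀ x, (∑ m ∈ S, wt a φ w (x + κ * δ) δ m) ^ 2 ≤ ‖∑ m ∈ S, c m * ch (l m) x‖ ^ 2 := by
    intro x
    have h1 : ∑ m ∈ S, wt a φ w (x + κ * δ) δ m = (∑ m ∈ S, c m * ch (l m) x).re := by
      rw [Complex.re_sum]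
      apply sum_congr rfl
      intro m _
      unfold wt
      rw [hc, hl]
      simp only
      rw [← Complex.re_ofReal_mul]
      congr 1
      unfold ch
      have e1 : Complex.exp (((2 * Real.pi * ((x + κ * δ) * √(m : ℝ)) - φ : ℝ) : ℂ) * Complex.I) =
          Complex.exp (((2 * Real.pi * (κ * δ * √(m : ℝ)) - φ : ℝ) : ℂ) * Complex.I) *
            Complex.exp (((2 * Real.pi * √(m : ℝ) * x : ℝ) : ℂ) * Complex.I) := by
        rw [← Complex.exp_add]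
        congr 1
        push_cast
        ring
      rw [e1]
      ring
    rw [h1, ← sq_abs]
    exact pow_le_pow_left₀ (abs_nonneg _) (Complex.abs_re_le_norm _) 2
  have hint : Integrable (fun x => ‖∑ m ∈ S, c m * ch (l m) x‖ ^ 2) (ga x₀ H) := by
    have hcont : Continuous (fun x => ‖∑ m ∈ S, c m * ch (l m) x‖ ^ 2) := by
      apply Continuous.pow
      apply Continuous.norm
      exact continuous_finsetSum _ fun m _ => continuous_const.mul (ch_cont _)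
    refine Integrable.of_bound hcont.aestronglyMeasurable ((∑ m ∈ S, ‖c m‖) ^ 2) (Eventually.of_forall fun x => ?_)
    rw [Real.norm_eq_abs, abs_of_nonneg (by positivity)]
    apply pow_le_pow_left₀ (norm_nonneg _)
    refine (norm_sum_le _ _).trans (sum_le_sum fun m _ => ?_)
    rw [norm_mul, norm_ch, mul_one]
  have h0 : ∫ x, (∑ m ∈ S, wt a φ w (x + κ * δ) δ m) ^ 2 ∂(ga x₀ H) ≤ ∫ x, ‖∑ m ∈ S, c m * ch (l m) x‖ ^ 2 ∂(ga x₀ H) :=
    integral_mono_of_nonneg (Eventually.of_forall fun x => sq_nonneg _) hint (Eventually.of_forall hre)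
  refine h0.trans ((quad_form (ga x₀ H) S c l).trans ?_)
  -- the coefficients
  have hcn : ∀ m : ℕ, ‖c m‖ = |a m| * ‖w (√(m : ℝ) * δ)‖ := by
    intro m
    rw [hc]
    simp only
    rw [norm_mul, norm_mul, Complex.norm_exp_ofReal_mul_I, one_mul, Complex.norm_real, Real.norm_eq_abs]
  have hc1 : ∀ m : ℕ, 1 ≤ m → ‖c m‖ ≤ |a m| * mb Cw δ m := by
    intro m hm
    have hm0 : (0 : ℝ) < m := by exact_mod_cast hm
    have hsm : 0 < √(m : ℝ) := Real.sqrt_pos.2 hm0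
    rw [hcn]
    have e1 := hw.one (√(m : ℝ) * δ) (by positivity)
    have e2 := hwd (√(m : ℝ) * δ) (by positivity)
    unfold mb
    exact mul_le_mul_of_nonneg_left (le_min e1 e2) (abs_nonneg _)
  have hc2 : ∀ m : ℕ, 1 ≤ m → ‖c m‖ * ‖c m‖ ≤ A ^ 2 * (m : ℝ) ^ (-(101 / 100) : ℝ) := by
    intro m hm
    have hm0 : (0 : ℝ) < m := by exact_mod_cast hm
    have hm1 : (1 : ℝ) ≤ m := by exact_mod_cast hm
    have hsm : 0 < √(m : ℝ) := Real.sqrt_pos.2 hm0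
    have e1 := hw.one (√(m : ℝ) * δ) (by positivity)
    have e2 := hAa m hm
    have e3 : ‖c m‖ ≤ A * (√(m : ℝ)) ^ (-(37 / 25) : ℝ) := by
      rw [hcn]
      calc |a m| * ‖w (√(m : ℝ) * δ)‖ ≤ |a m| * 1 := mul_le_mul_of_nonneg_left e1 (abs_nonneg _)
        _ ≤ _ := by rw [mul_one]; exact e2
    calc ‖c m‖ * ‖c m‖ ≤ (A * (√(m : ℝ)) ^ (-(37 / 25) : ℝ)) * (A * (√(m : ℝ)) ^ (-(37 / 25) : ℝ)) :=
          mul_le_mul e3 e3 (norm_nonneg _) (by positivity)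
      _ = A ^ 2 * ((√(m : ℝ)) ^ (-(37 / 25) : ℝ) * (√(m : ℝ)) ^ (-(37 / 25) : ℝ)) := by ring
      _ ≤ A ^ 2 * (m : ℝ) ^ (-(101 / 100) : ℝ) := by
          apply mul_le_mul_of_nonneg_left _ (by positivity)
          rw [← Real.rpow_add hsm, Real.sqrt_eq_rpow, ← Real.rpow_mul hm0.le]
          exact Real.rpow_le_rpow_of_exponent_le hm1 (by norm_num)
  -- the kernel
  have hker : ∀ m j : ℕ, ‖∫ x, ch (l m - l j) x ∂(ga x₀ H)‖ = G H m j := by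
    intro m j
    rw [ga_ch, hl]
    unfold G
    congr 1
    ring
  have hsplit : ∀ m ∈ S, ∑ j ∈ S, ‖c m‖ * ‖c j‖ * ‖∫ x, ch (l m - l j) x ∂(ga x₀ H)‖ ≤
      A ^ 2 * (m : ℝ) ^ (-(101 / 100) : ℝ) + ∑ j ∈ S.filter (fun j => j ≠ m), ‖c m‖ * ‖c j‖ * G H m j := by
    intro m hm
    simp only [hker]
    rw [← sum_filter_add_sum_filter_not S (fun j => j ≠ m), add_comm]
    apply add_le_add_left
    have e1 : S.filter (fun j => ¬ j ≠ m) = {m} := by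
      ext j
      rw [mem_filter, mem_singleton, not_not]
      exact ⟨fun h => h.2, fun h => ⟨by rw [h]; exact hm, h⟩⟩
    rw [e1, sum_singleton]
    have e2 : G H m m = 1 := by unfold G; simp
    rw [e2, mul_one]
    exact hc2 m (hSm m hm).1
  refine (sum_le_sum hsplit).trans ?_
  rw [sum_add_distrib]
  have hdiagsum : ∑ m ∈ S, A ^ 2 * (m : ℝ) ^ (-(101 / 100) : ℝ) ≤ A ^ 2 * Tl M := by
    rw [← mul_sum]
    apply mul_le_mul_of_nonneg_left _ (by positivity)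
    have hs101 : Summable (fun k : ℕ => (k : ℝ) ^ (-(101 / 100) : ℝ)) := by
      rw [Real.summable_nat_rpow]; norm_num
    have h1 : Summable (fun q : ℕ => (((q + M : ℕ)) : ℝ) ^ (-(101 / 100) : ℝ)) := (summable_nat_add_iff M).2 hs101
    have h2 : ∑ m ∈ S, (m : ℝ) ^ (-(101 / 100) : ℝ) = ∑ q ∈ S.image (fun m => m - M), (((q + M : ℕ)) : ℝ) ^ (-(101 / 100) : ℝ) := by
      have hMM : ∀ m ∈ S, M ≤ m := by
        intro m hm
        obtain ⟨_, h3⟩ := hSm m hm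
        have : M ≤ M ^ 2 := Nat.le_self_pow (by norm_num) M
        omega
      rw [sum_image]
      · apply sum_congr rfl
        intro m hm
        rw [Nat.sub_add_cancel (hMM m hm)]
      · intro x hx y hy hxy
        have := hMM x hx
        have := hMM y hy
        simp only at hxy
        omega
    rw [h2]
    exact h1.sum_le_tsum _ fun q _ => by positivity
  have hoffs := hoff δ H hδ hδ1 hH (fun m => ‖c m‖) (fun m => norm_nonneg _) hc1 S (fun m hm => (hSm m hm).1)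
  have hTl := Tl_nonneg M
  have hlog : 0 ≤ (Real.log (1 / δ)) ^ (p + 1) / H := by
    apply div_nonneg _ hH0.le
    apply pow_nonneg
    apply Real.log_nonneg
    rw [le_div_iff₀ hδ]
    linarith
  calc _ ≤ A ^ 2 * Tl M + Co * ((Real.log (1 / δ)) ^ (p + 1) / H) := add_le_add hdiagsum hoffs
    _ ≤ _ := by nlinarith [mul_nonneg hCo.le hTl, mul_nonneg (sq_nonneg A) hlog]

/-- **approximation in mean square in all short windows** -/
theorem tail_win {E : ℝ → ℝ} {a : ℕ → ℝ} {φ κ₁ κ₂ : ℝ} {w : ℝ → ℂ} (ha : Bd a) (ha0 : a 0 = 0) {p : ℕ} (hp : Off p a)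
    (hw : Wt w) (hSW : SandW E a φ w κ₁ κ₂) :
    ∀ η : ℝ, 0 < η → ∃ (M₀ : ℕ) (L : ℝ), 0 < L ∧ ∀ M, M₀ ≤ M → ∃ R₀ : ℝ, ∀ R, R₀ ≤ R → ∀ H,
    L * (Real.log R) ^ (p + 1) ≤ H → H ≤ R → ∫ x, (E x - U a φ x M) ^ 2 ∂(wm R H) ≤ η := by
  classical
  intro η hη
  obtain ⟨Ct, hCt, htail⟩ := WS_tail (φ := φ) ha ha0 hw
  obtain ⟨τ, hτd⟩ : ∃ τ : ℝ, τ = 1 / 200 := ⟨_, rfl⟩
  have hτ0 : 0 < τ := by rw [hτd]; norm_num
  have hτ1 : τ ≤ 1 / 200 := by rw [hτd]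
  obtain ⟨C0, hC0, hS⟩ := hSW (τ / 2) (by positivity)
  obtain ⟨C1, hC1, hms1⟩ := tail_gen ha hp hw φ κ₁
  obtain ⟨C2, hC2, hms2⟩ := tail_gen ha hp hw φ κ₂
  have hTl : Tendsto (fun M => 9 * (C1 + C2) * Tl M) atTop (𝓝 0) := by
    have := Tl_tendsto.const_mul (9 * (C1 + C2))
    rwa [mul_zero] at this
  obtain ⟨M₀, hM₀⟩ := Filter.eventually_atTop.1 (hTl.eventually (gt_mem_nhds (show 0 < η / 2 by linarith)))
  obtain ⟨L, hL⟩ : ∃ L : ℝ, L = 36 * (C1 + C2) / η + 2 := ⟨_, rfl⟩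
  have hL0 : 0 < L := by rw [hL]; positivity
  have hL2 : 2 ≤ L := by
    rw [hL]
    have : 0 ≤ 36 * (C1 + C2) / η := by positivity
    linarith
  have hLη : 9 * (C1 + C2) * (1 / L) ≤ η / 4 := by
    rw [mul_one_div, div_le_iff₀ hL0, hL]
    have : η / 4 * (36 * (C1 + C2) / η + 2) = 9 * (C1 + C2) + η / 2 := by field_simp; ring
    rw [this]
    linarith
  refine ⟨M₀ + 1, L, hL0, fun M hM => ?_⟩
  have hTM := hM₀ M (by omega)
  obtain ⟨K₁, hK₁, hlow₁⟩ := WS_low a φ hw κ₁ M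
  obtain ⟨K₂, hK₂, hlow₂⟩ := WS_low a φ hw κ₂ M
  -- the constant of the error terms
  obtain ⟨D, hD⟩ : ∃ D : ℝ, D = 2 * Ct + K₁ + K₂ + C0 * (2 ^ (1 / 2 + τ / 2) + 2) := ⟨_, rfl⟩
  have hDpos : 0 < D := by rw [hD]; positivity
  obtain ⟨T2, hT2⟩ := pow_small τ hτ0 (show 0 < η / 4 by linarith) (3 * D ^ 2)
  obtain ⟨T3, hT3⟩ := pow_small (1 / 2 + τ) (by linarith) (show (0 : ℝ) < 1 / 2 by norm_num) 1
  obtain ⟨T5, hT5⟩ := pow_small (9 / 10) (by norm_num) (show (0 : ℝ) < 1 by norm_num) (M + 2)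
  refine ⟨max (max T2 T3) (max T5 4), fun T hT H hH1 hH2 => ?_⟩
  have g2 : T2 ≤ T := le_trans (le_trans (le_max_left _ _) (le_max_left _ _)) hT
  have g3 : T3 ≤ T := le_trans (le_trans (le_max_right _ _) (le_max_left _ _)) hT
  have g5 : T5 ≤ T := le_trans (le_trans (le_max_left _ _) (le_max_right _ _)) hT
  have g7 : 4 ≤ T := le_trans (le_trans (le_max_right _ _) (le_max_right _ _)) hT
  have g6 : 1 ≤ T := by linarith
  have hT0 : 0 < T := by linarith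
  have hlogT : 1 ≤ Real.log T := by
    have e1 : Real.log 4 ≤ Real.log T := Real.log_le_log (by norm_num) (by linarith)
    have e2 : Real.log 4 = 2 * Real.log 2 := by
      rw [show (4 : ℝ) = 2 ^ 2 by norm_num, Real.log_pow]
      norm_num
    have := Real.log_two_gt_d9
    linarith
  have hlogTp : 1 ≤ (Real.log T) ^ (p + 1) := one_le_pow₀ hlogT
  have hH : 1 ≤ H := by nlinarith
  have hH0 : 0 < H := by linarith
  have h2 := hT2 T g2
  have h3 := hT3 T g3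
  have h5 := hT5 T g5
  obtain ⟨δ, hδ⟩ : ∃ δ : ℝ, δ = T ^ (-(1 / 2 + τ)) := ⟨_, rfl⟩
  have hδ0 : 0 < δ := by rw [hδ]; positivity
  rw [one_mul, ← hδ] at h3
  obtain ⟨Y, hY⟩ : ∃ Y : ℕ, Y = ⌊T ^ (9 / 10 : ℝ)⌋₊ := ⟨_, rfl⟩
  have hT9 : (M : ℝ) + 2 ≤ T ^ (9 / 10 : ℝ) := by
    rw [Real.rpow_neg hT0.le, mul_inv_le_iff₀ (by positivity)] at h5
    linarith
  have hY2 : T ^ (9 / 10 : ℝ) / 2 ≤ Y := by
    have e1 : T ^ (9 / 10 : ℝ) < Y + 1 := by rw [hY]; exact Nat.lt_floor_add_one _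
    have e2 : (2 : ℝ) ≤ T ^ (9 / 10 : ℝ) := by linarith [(Nat.cast_nonneg M : (0 : ℝ) ≤ M)]
    linarith
  have hMY : M ≤ Y := by
    rw [hY]
    apply Nat.le_floor
    linarith
  have hY0 : (0 : ℝ) < Y := by
    have : 0 < M := by omega
    exact_mod_cast (by omega : 0 < Y)
  -- the error terms
  have k1 : Ct * δ ^ (-(3 / 2) : ℝ) * (Y : ℝ) ^ (-(24 / 25) : ℝ) ≤ 2 * Ct * T ^ (-(τ / 2)) := by
    have e1 : (Y : ℝ) ^ (-(24 / 25) : ℝ) ≤ 2 * T ^ (-(108 / 125) : ℝ) := by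
      refine (Real.rpow_le_rpow_of_nonpos (by positivity) hY2 (by norm_num)).trans ?_
      rw [div_eq_mul_inv, Real.mul_rpow (by positivity) (by norm_num), ← Real.rpow_mul hT0.le, Real.inv_rpow (by norm_num), ← Real.rpow_neg (by norm_num), neg_neg, mul_comm]
      have e2 : (9 / 10 * -(24 / 25) : ℝ) = -(108 / 125) := by norm_num
      rw [e2]
      apply mul_le_mul_of_nonneg_right _ (by positivity)
      calc (2 : ℝ) ^ (24 / 25 : ℝ) ≤ 2 ^ (1 : ℝ) := Real.rpow_le_rpow_of_exponent_le (by norm_num) (by norm_num)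
        _ = 2 := Real.rpow_one 2
    have e3 : δ ^ (-(3 / 2) : ℝ) = T ^ (3 / 4 + 3 / 2 * τ) := by
      rw [hδ, ← Real.rpow_mul hT0.le]
      congr 1
      ring
    calc Ct * δ ^ (-(3 / 2) : ℝ) * (Y : ℝ) ^ (-(24 / 25) : ℝ) ≤ Ct * T ^ (3 / 4 + 3 / 2 * τ) * (2 * T ^ (-(108 / 125) : ℝ)) := by
          rw [e3]
          exact mul_le_mul_of_nonneg_left e1 (by positivity)
      _ = 2 * Ct * (T ^ (3 / 4 + 3 / 2 * τ) * T ^ (-(108 / 125) : ℝ)) := by ring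
      _ ≤ 2 * Ct * T ^ (-(τ / 2)) := by
          apply mul_le_mul_of_nonneg_left _ (by positivity)
          rw [← Real.rpow_add hT0]
          exact Real.rpow_le_rpow_of_exponent_le g6 (by linarith)
  have k2 : δ ≤ T ^ (-(τ / 2)) := by
    rw [hδ]
    exact Real.rpow_le_rpow_of_exponent_le g6 (by linarith)
  have k3 : ∀ R : ℝ, T ≤ R → R ≤ 2 * T → erw (τ / 2) R δ ≤ (2 ^ (1 / 2 + τ / 2) + 2) * T ^ (-(τ / 2)) := by
    intro R hR1 hR2
    have hR0 : 0 < R := by linarith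
    unfold erw
    have e1 : δ * R ^ (1 / 2 + τ / 2) ≤ 2 ^ (1 / 2 + τ / 2) * T ^ (-(τ / 2)) := by
      calc δ * R ^ (1 / 2 + τ / 2) ≤ δ * (2 * T) ^ (1 / 2 + τ / 2) := by
            apply mul_le_mul_of_nonneg_left _ hδ0.le
            exact Real.rpow_le_rpow hR0.le hR2 (by linarith)
        _ = 2 ^ (1 / 2 + τ / 2) * (T ^ (-(1 / 2 + τ)) * T ^ (1 / 2 + τ / 2)) := by
            rw [Real.mul_rpow (by norm_num) hT0.le, hδ]
            ring
        _ = 2 ^ (1 / 2 + τ / 2) * T ^ (-(τ / 2)) := by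
            rw [← Real.rpow_add hT0]
            congr 2
            ring
    have e2 : R ^ (-(12 / 25) : ℝ) * δ ^ (-(13 / 25) : ℝ) ≤ T ^ (-(τ / 2)) := by
      calc R ^ (-(12 / 25) : ℝ) * δ ^ (-(13 / 25) : ℝ) ≤ T ^ (-(12 / 25) : ℝ) * δ ^ (-(13 / 25) : ℝ) := by
            apply mul_le_mul_of_nonneg_right _ (by positivity)
            exact Real.rpow_le_rpow_of_nonpos (by positivity) hR1 (by norm_num)
        _ = T ^ (-(12 / 25) : ℝ) * T ^ (-(1 / 2 + τ) * -(13 / 25)) := by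
            rw [hδ, ← Real.rpow_mul hT0.le]
        _ ≤ T ^ (-(τ / 2)) := by
            rw [← Real.rpow_add hT0]
            exact Real.rpow_le_rpow_of_exponent_le g6 (by linarith)
    have e3 : δ ^ (2 / 5 : ℝ) ≤ T ^ (-(τ / 2)) := by
      rw [hδ, ← Real.rpow_mul hT0.le]
      exact Real.rpow_le_rpow_of_exponent_le g6 (by linarith)
    linarith
  obtain ⟨t, ht⟩ : ∃ t : ℝ, t = T ^ (-(τ / 2)) := ⟨_, rfl⟩
  rw [← ht] at k1 k2
  have ht0 : 0 < t := by rw [ht]; positivity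
  have ht2 : t ^ 2 = T ^ (-τ) := by
    rw [ht, ← Real.rpow_natCast, ← Real.rpow_mul hT0.le]
    congr 1
    push_cast
    ring
  -- the two sums
  obtain ⟨A, hA⟩ : ∃ A : ℝ → ℝ → ℝ, A = fun κ x => ∑ m ∈ Ioc (M ^ 2) (Y ^ 2), wt a φ w (x + κ * δ) δ m := ⟨_, rfl⟩
  have hsplit : ∀ (κ Kκ : ℝ), (∀ R δ : ℝ, 0 < δ → |∑ m ∈ Icc 1 (M ^ 2), wt a φ w (R + κ * δ) δ m - U a φ R M| ≤ Kκ * δ) →
      ∀ x : ℝ, |WS a φ w (x + κ * δ) δ - U a φ x M| ≤ 2 * Ct * t + Kκ * t + |A κ x| := by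
    intro κ Kκ hlow x
    have e1 := htail δ hδ0 (x + κ * δ) Y (by exact_mod_cast hY0)
    have e2 := hlow x δ hδ0
    have e3 : ∑ m ∈ Icc 1 (Y ^ 2), wt a φ w (x + κ * δ) δ m = ∑ m ∈ Icc 1 (M ^ 2), wt a φ w (x + κ * δ) δ m + A κ x := by
      rw [hA]
      simp only
      rw [← sum_union]
      · congr 1
        have : M ^ 2 ≤ Y ^ 2 := Nat.pow_le_pow_left hMY 2
        ext m
        simp only [mem_union, mem_Icc, mem_Ioc]
        omega
      · rw [disjoint_left]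
        intro m hm hm'
        rw [mem_Icc] at hm
        rw [mem_Ioc] at hm'
        omega
    have e4 : WS a φ w (x + κ * δ) δ - U a φ x M = (WS a φ w (x + κ * δ) δ - ∑ m ∈ Icc 1 (Y ^ 2), wt a φ w (x + κ * δ) δ m) +
        (∑ m ∈ Icc 1 (M ^ 2), wt a φ w (x + κ * δ) δ m - U a φ x M) + A κ x := by
      rw [e3]; ring
    rw [e4]
    refine (abs_add_le _ _).trans (add_le_add_left ((abs_add_le _ _).trans ?_) _)
    have e5 : 0 ≤ Kκ := by
      have := (abs_nonneg _).trans (hlow 0 1 one_pos)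
      linarith
    have e6 : Kκ * δ ≤ Kκ * t := mul_le_mul_of_nonneg_left k2 e5
    linarith
  have hpt : ∀ᵐ x ∂(wm T H), (E x - U a φ x M) ^ 2 ≤ 3 * ((A κ₁ x) ^ 2 + (A κ₂ x) ^ 2 + (D * t) ^ 2) := by
    filter_upwards [wm_supp] with x hx
    have hR1 : T ≤ x := hx.1.le
    have hR2 : x ≤ 2 * T := by linarith [hx.2]
    have hR4 : 4 ≤ x := by linarith
    obtain ⟨e1, e2⟩ := hS x x δ hR4 hδ0 h3 (by simp [hδ0.le])
    have e3 := hsplit κ₁ K₁ hlow₁ x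
    have e4 := hsplit κ₂ K₂ hlow₂ x
    have e5 := k3 x hR1 hR2
    rw [← ht] at e5
    have e6 : C0 * erw (τ / 2) x δ ≤ C0 * ((2 ^ (1 / 2 + τ / 2) + 2) * t) := mul_le_mul_of_nonneg_left e5 hC0.le
    have e7 := abs_le.1 e3
    have e8 := abs_le.1 e4
    have hDt : D * t = 2 * Ct * t + K₁ * t + K₂ * t + C0 * ((2 ^ (1 / 2 + τ / 2) + 2) * t) := by
      rw [hD]; ring
    have e9 : 0 ≤ K₁ * t := by positivity
    have e10 : 0 ≤ K₂ * t := by positivity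
    have e11 : |E x - U a φ x M| ≤ |A κ₁ x| + |A κ₂ x| + D * t := by
      rw [abs_le]
      constructor
      · have := abs_nonneg (A κ₁ x)
        linarith [e8.1]
      · have := abs_nonneg (A κ₂ x)
        linarith [e7.2]
    have e12 : 0 ≤ D * t := by positivity
    rw [← sq_abs (E x - U a φ x M), ← sq_abs (A κ₁ x), ← sq_abs (A κ₂ x)]
    have e13 := pow_le_pow_left₀ (abs_nonneg _) e11 2
    exact e13.trans (sq_three _ _ _)
  have := wm_prob T hH0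
  have hcont : ∀ κ : ℝ, Continuous (fun x : ℝ => (A κ x) ^ 2) := by
    intro κ
    rw [hA]
    have h := fun m : ℕ => wt_cont a φ w 1 κ δ m
    simp only [one_mul] at h
    exact (continuous_finsetSum _ fun m _ => h m).pow 2
  have hbd : ∀ κ x : ℝ, (A κ x) ^ 2 ≤ (∑ m ∈ Ioc (M ^ 2) (Y ^ 2), |a m| * ‖w (√(m : ℝ) * δ)‖) ^ 2 := by
    intro κ x
    rw [← sq_abs]
    apply pow_le_pow_left₀ (abs_nonneg _)
    rw [hA]
    exact (abs_sum_le_sum_abs _ _).trans (sum_le_sum fun m _ => abs_wt_le _ _ m)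
  have hint : ∀ κ : ℝ, Integrable (fun x => (A κ x) ^ 2) (wm T H) := by
    intro κ
    refine Integrable.of_bound (hcont κ).aestronglyMeasurable
      ((∑ m ∈ Ioc (M ^ 2) (Y ^ 2), |a m| * ‖w (√(m : ℝ) * δ)‖) ^ 2) (Eventually.of_forall fun x => ?_)
    rw [Real.norm_eq_abs, abs_of_nonneg (sq_nonneg _)]
    exact hbd κ x
  have hmain := integral_mono_of_nonneg (μ := wm T H) (f := fun x => (E x - U a φ x M) ^ 2)
    (g := fun x => 3 * ((A κ₁ x) ^ 2 + (A κ₂ x) ^ 2 + (D * t) ^ 2)) (Eventually.of_forall fun x => sq_nonneg _)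
    ((((hint κ₁).add (hint κ₂)).add (integrable_const _)).const_mul 3) hpt
  refine hmain.trans ?_
  have hsumint : ∫ x, 3 * ((A κ₁ x) ^ 2 + (A κ₂ x) ^ 2 + (D * t) ^ 2) ∂(wm T H) =
      3 * (∫ x, (A κ₁ x) ^ 2 ∂(wm T H) + ∫ x, (A κ₂ x) ^ 2 ∂(wm T H) + (D * t) ^ 2) := by
    rw [integral_const_mul]
    congr 1
    have e1 : ∫ x, ((A κ₁ x) ^ 2 + (A κ₂ x) ^ 2 + (D * t) ^ 2) ∂(wm T H) = ∫ x, ((A κ₁ x) ^ 2 + (A κ₂ x) ^ 2) ∂(wm T H) + ∫ _x, (D * t) ^ 2 ∂(wm T H) :=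
      integral_add ((hint κ₁).add (hint κ₂)) (integrable_const _)
    have e2 : ∫ x, ((A κ₁ x) ^ 2 + (A κ₂ x) ^ 2) ∂(wm T H) = ∫ x, (A κ₁ x) ^ 2 ∂(wm T H) + ∫ x, (A κ₂ x) ^ 2 ∂(wm T H) := integral_add (hint κ₁) (hint κ₂)
    rw [e1, e2, integral_const]
    simp only [probReal_univ, one_smul]
  rw [hsumint]
  have hlogδ : (Real.log (1 / δ)) ^ (p + 1) / H ≤ 1 / L := by
    have e1 : Real.log (1 / δ) ≤ Real.log T := by
      rw [one_div, Real.log_inv, hδ, Real.log_rpow hT0]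
      nlinarith
    have e0 : 0 ≤ Real.log (1 / δ) := by
      apply Real.log_nonneg
      rw [le_div_iff₀ hδ0]
      linarith
    have e2 := pow_le_pow_left₀ e0 e1 (p + 1)
    rw [div_le_div_iff₀ hH0 hL0]
    nlinarith
  have hwin : ∀ κ C : ℝ, 0 < C → (∀ x₀ H δ : ℝ, 1 ≤ H → 0 < δ → δ ≤ 1 / 2 → ∀ M Y : ℕ, 1 ≤ M →
      ∫ x, (∑ m ∈ Ioc (M ^ 2) (Y ^ 2), wt a φ w (x + κ * δ) δ m) ^ 2 ∂(ga x₀ H) ≤ C * (Tl M + (Real.log (1 / δ)) ^ (p + 1) / H)) →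
      ∫ x, (A κ x) ^ 2 ∂(wm T H) ≤ 3 * (C * (Tl M + 1 / L)) := by
    intro κ C hC hms
    refine (wm_le_ga hH0 (hcont κ) (fun x => sq_nonneg _) ⟨_, hbd κ⟩).trans ?_
    apply mul_le_mul_of_nonneg_left _ (by norm_num)
    have e1 := hms (T + H / 2) H δ hH hδ0 h3 M Y (by omega)
    have e2 : ∫ x, (A κ x) ^ 2 ∂(ga (T + H / 2) H) = ∫ x, (∑ m ∈ Ioc (M ^ 2) (Y ^ 2), wt a φ w (x + κ * δ) δ m) ^ 2 ∂(ga (T + H / 2) H) := by
      rw [hA]
    rw [e2]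
    exact e1.trans (mul_le_mul_of_nonneg_left (by linarith) hC.le)
  have m1 := hwin κ₁ C1 hC1 hms1
  have m2 := hwin κ₂ C2 hC2 hms2
  have e1 : 3 * (D * t) ^ 2 ≤ η / 4 := by
    rw [mul_pow, ht2]
    linarith
  linarith

end Pool.Agent.H648_nf
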